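import Pool.Agent.H.MP_d7db32_ag.Eq.L.Exp

/-!
# MP_d7db32_ag, Eq/F/Pwg: reduction to primitive pencils for a set `G` of maps (compare L/Cmp, L/Exp and M/Pwf)
-/

set_option autoImplicit false

namespace PadDet.Eq

open Matrix

/-- Determinant expression of `c F`, equivariant for the maps in `G`. -/
structure Pwg (k m : ℕ) (c : ℂ) (L : Matrix (Fin m) (Fin m) ℂ)
    (M : Matrix (Fin (2 * k + 1)) (Fin (2 * k + 1)) ℂ →ₗ[ℂ] Matrix (Fin m) (Fin m) ℂ)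
    (G : Set (Matrix (Fin (2 * k + 1)) (Fin (2 * k + 1)) ℂ →
      Matrix (Fin (2 * k + 1)) (Fin (2 * k + 1)) ℂ)) : Prop where
  c0 : c ≠ 0
  det : ∀ X, (L + M X).det = c * Fv X
  eqv : ∀ g ∈ G, Eqv L M g

/-- The compressed linear part. -/
private noncomputable def Pwg_lin {n m r : ℕ}
    (M : Matrix (Fin n) (Fin n) ℂ →ₗ[ℂ] Matrix (Fin m) (Fin m) ℂ)
    (U : Matrix (Fin m) (Fin r) ℂ) (V : Matrix (Fin r) (Fin m) ℂ) :
    Matrix (Fin n) (Fin n) ℂ →ₗ[ℂ] Matrix (Fin r) (Fin r) ℂ where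
  toFun X := V * M X * U
  map_add' X Y := by rw [map_add, Matrix.mul_add, Matrix.add_mul]
  map_smul' c X := by rw [map_smul, Matrix.mul_smul, Matrix.smul_mul, RingHom.id_apply]

private theorem Pwg_apply {n m r : ℕ} (L : Matrix (Fin m) (Fin m) ℂ)
    (M : Matrix (Fin n) (Fin n) ℂ →ₗ[ℂ] Matrix (Fin m) (Fin m) ℂ)
    (U : Matrix (Fin m) (Fin r) ℂ) (V : Matrix (Fin r) (Fin m) ℂ) (X : Matrix (Fin n) (Fin n) ℂ) :
    V * L * U + Pwg_lin M U V X = V * (L + M X) * U := by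
  show V * L * U + V * M X * U = _
  rw [Matrix.mul_add, Matrix.add_mul]

private theorem Pwg_eqv {n m r : ℕ} {L : Matrix (Fin m) (Fin m) ℂ}
    {M : Matrix (Fin n) (Fin n) ℂ →ₗ[ℂ] Matrix (Fin m) (Fin m) ℂ}
    {x y : Matrix (Fin m) (Fin m) ℂ} (hxy : Gid L M x y)
    (hmin : ∀ x' y', Gid L M x' y' → y.rank ≤ y'.rank)
    {U : Matrix (Fin m) (Fin r) ℂ} {V : Matrix (Fin r) (Fin m) ℂ}
    (h1 : V * U = 1) (h2 : U * V = y) {U' : Matrix (Fin m) (Fin r) ℂ}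
    {V' : Matrix (Fin r) (Fin m) ℂ} (h1' : V' * U' = 1) (h2' : U' * V' = x)
    {g : Matrix (Fin n) (Fin n) ℂ → Matrix (Fin n) (Fin n) ℂ}
    (hg : ∃ X, (V' * (L + M X) * U).det ≠ 0 ∧ (V' * (L + M (g X)) * U).det ≠ 0)
    (he : Eqv L M g) : Eqv (V' * L * U) (Pwg_lin M U V') g := by
  obtain ⟨A, B, hA, hB, hAB⟩ := he
  have hyU : y * U = U := by rw [← h2, Matrix.mul_assoc, h1, Matrix.mul_one]
  have hVx : V' * x = V' := by rw [← h2', ← Matrix.mul_assoc, h1', Matrix.one_mul]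
  have hmor : ∀ X, (V' * A * U') * (V' * (L + M X) * U) =
      (V' * (L + M (g X)) * U) * (V * B * U) := by
    intro X
    have e1 : x * (L + M X) = (L + M X) * y := hxy.mor X
    have e2 : x * (L + M (g X)) = (L + M (g X)) * y := hxy.mor (g X)
    have e3 : A * (L + M X) = (L + M (g X)) * B := hAB X
    calc (V' * A * U') * (V' * (L + M X) * U)
        = V' * A * ((U' * V') * (L + M X)) * U := by simp only [Matrix.mul_assoc]
      _ = V' * (A * (L + M X)) * (y * U) := by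
          rw [h2', e1]
          simp only [Matrix.mul_assoc]
      _ = V' * ((L + M (g X)) * B) * U := by rw [hyU, e3]
      _ = (V' * x) * (L + M (g X)) * B * U := by
          rw [hVx]
          simp only [Matrix.mul_assoc]
      _ = V' * (x * (L + M (g X))) * B * U := by simp only [Matrix.mul_assoc]
      _ = V' * (L + M (g X)) * (U * V) * B * U := by
          rw [e2, h2]
          simp only [Matrix.mul_assoc]
      _ = (V' * (L + M (g X)) * U) * (V * B * U) := by simp only [Matrix.mul_assoc]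
  have hB1 : (V * B * U).det ≠ 0 := by
    intro h0
    obtain ⟨u, hu, hu0⟩ := Matrix.exists_mulVec_eq_zero_iff.2 h0
    have e1 : y *ᵥ (U *ᵥ u) = U *ᵥ u := by rw [Matrix.mulVec_mulVec, hyU]
    have e2 : y *ᵥ (B *ᵥ (U *ᵥ u)) = 0 := by
      calc y *ᵥ (B *ᵥ (U *ᵥ u)) = U *ᵥ ((V * B * U) *ᵥ u) := by
            rw [← h2]
            simp only [Matrix.mulVec_mulVec, Matrix.mul_assoc]
        _ = 0 := by rw [hu0, Matrix.mulVec_zero]
    have e4 := exch hxy hmin hA hB hAB e1 e2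
    apply hu
    calc u = (V * U) *ᵥ u := by rw [h1, Matrix.one_mulVec]
      _ = V *ᵥ (U *ᵥ u) := by rw [Matrix.mulVec_mulVec]
      _ = 0 := by rw [e4, Matrix.mulVec_zero]
  refine ⟨V' * A * U', V * B * U, ?_, hB1, ?_⟩
  · obtain ⟨X, hX1, hX2⟩ := hg
    have e := congrArg Matrix.det (hmor X)
    rw [Matrix.det_mul, Matrix.det_mul] at e
    intro h0
    rw [h0, zero_mul] at e
    exact mul_ne_zero hX2 hB1 e.symm
  · intro X
    rw [Pwg_apply, Pwg_apply]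
    exact hmor X

theorem Pwg_cmp {k m : ℕ} {c : ℂ} {L : Matrix (Fin m) (Fin m) ℂ}
    {M : Matrix (Fin (2 * k + 1)) (Fin (2 * k + 1)) ℂ →ₗ[ℂ] Matrix (Fin m) (Fin m) ℂ}
    {G : Set (Matrix (Fin (2 * k + 1)) (Fin (2 * k + 1)) ℂ →
      Matrix (Fin (2 * k + 1)) (Fin (2 * k + 1)) ℂ)}
    (hG : ∀ g ∈ G, ∀ X, Fv X ≠ 0 → Fv (g X) ≠ 0) (h : Pwg k m c L M G)
    {x y : Matrix (Fin m) (Fin m) ℂ} (hxy : Gid L M x y)
    (hmin : ∀ x' y', Gid L M x' y' → y.rank ≤ y'.rank) :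
    ∃ (c' : ℂ) (L' : Matrix (Fin y.rank) (Fin y.rank) ℂ)
      (M' : Matrix (Fin (2 * k + 1)) (Fin (2 * k + 1)) ℂ →ₗ[ℂ] Matrix (Fin y.rank) (Fin y.rank) ℂ),
      Pwg k y.rank c' L' M' G := by
  have hX := exists_det h.c0 h.det
  obtain ⟨U, V, h1, h2⟩ := fac hxy.iy rfl
  obtain ⟨U', V', h1', h2'⟩ := fac hxy.ix (rank_eq hxy.mor hX)
  obtain ⟨c1, hc1, hd⟩ := fac_det hxy hX h1 h2 h1' h2'
  have hd' : ∀ X, (V' * (L + M X) * U).det = c1 * c * Fv X := by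
    intro X
    rw [hd, h.det, mul_assoc]
  have hc : c1 * c ≠ 0 := mul_ne_zero hc1 h.c0
  obtain ⟨X0, hX0⟩ := exists_ne k
  refine ⟨c1 * c, V' * L * U, Pwg_lin M U V', hc, ?_, fun g hg => ?_⟩
  · intro X
    rw [Pwg_apply, hd']
  · refine Pwg_eqv hxy hmin h1 h2 h1' h2' ⟨X0, ?_, ?_⟩ (h.eqv g hg)
    · rw [hd']
      exact mul_ne_zero hc hX0
    · rw [hd']
      exact mul_ne_zero hc (hG g hg X0 hX0)

/-- an idempotent matrix of full rank is the identity -/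
private theorem Pwg_rank_lt {n : ℕ} {y : Matrix (Fin n) (Fin n) ℂ} (hy : y * y = y) (h1 : y ≠ 1) :
    y.rank < n := by
  have hle : y.rank ≤ n := by
    have h := Matrix.rank_le_card_width y
    rwa [Fintype.card_fin] at h
  refine lt_of_le_of_ne hle fun he => h1 ?_
  have htop : LinearMap.range y.mulVecLin = ⊤ := by
    apply Submodule.eq_top_of_finrank_eq
    rw [Module.finrank_fin_fun]
    exact he
  have hfix : ∀ v, y *ᵥ v = v := by
    intro v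
    have hv : v ∈ LinearMap.range y.mulVecLin := by
      rw [htop]
      exact Submodule.mem_top
    obtain ⟨u, rfl⟩ := hv
    rw [Matrix.mulVecLin_apply, Matrix.mulVec_mulVec, hy]
  refine Matrix.mulVec_injective ?_
  funext v
  rw [hfix, Matrix.one_mulVec]

theorem exists_primg {k m : ℕ} {c : ℂ} {L : Matrix (Fin m) (Fin m) ℂ}
    {M : Matrix (Fin (2 * k + 1)) (Fin (2 * k + 1)) ℂ →ₗ[ℂ] Matrix (Fin m) (Fin m) ℂ}
    {G : Set (Matrix (Fin (2 * k + 1)) (Fin (2 * k + 1)) ℂ →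
      Matrix (Fin (2 * k + 1)) (Fin (2 * k + 1)) ℂ)}
    (hG : ∀ g ∈ G, ∀ X, Fv X ≠ 0 → Fv (g X) ≠ 0) (h : Pwg k m c L M G) :
    ∃ m', m' ≤ m ∧ ∃ (c' : ℂ) (L' : Matrix (Fin m') (Fin m') ℂ)
      (M' : Matrix (Fin (2 * k + 1)) (Fin (2 * k + 1)) ℂ →ₗ[ℂ] Matrix (Fin m') (Fin m') ℂ),
      Pwg k m' c' L' M' G ∧ Prim L' M' := by
  classical
  have hex : ∃ m', ∃ (c' : ℂ) (L' : Matrix (Fin m') (Fin m') ℂ)
      (M' : Matrix (Fin (2 * k + 1)) (Fin (2 * k + 1)) ℂ →ₗ[ℂ] Matrix (Fin m') (Fin m') ℂ),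
      Pwg k m' c' L' M' G := ⟨m, c, L, M, h⟩
  have hm : Nat.find hex ≤ m := Nat.find_min' hex ⟨c, L, M, h⟩
  have hmin : ∀ m', m' < Nat.find hex → ¬ ∃ (c' : ℂ) (L' : Matrix (Fin m') (Fin m') ℂ)
      (M' : Matrix (Fin (2 * k + 1)) (Fin (2 * k + 1)) ℂ →ₗ[ℂ] Matrix (Fin m') (Fin m') ℂ),
      Pwg k m' c' L' M' G := fun m' hm' => Nat.find_min hex hm'
  obtain ⟨c₀, L₀, M₀, h₀⟩ := Nat.find_spec hex
  refine ⟨Nat.find hex, hm, c₀, L₀, M₀, h₀, ?_⟩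
  intro x y hxy hx hy hgood
  by_contra hne
  have hr : ∃ r, ∃ x' y', Gid L₀ M₀ x' y' ∧ y'.rank = r := ⟨_, x, y, ⟨hxy, hx, hy, hgood⟩, rfl⟩
  obtain ⟨x', y', hG', hrk⟩ := Nat.find_spec hr
  have hle : ∀ x'' y'', Gid L₀ M₀ x'' y'' → y'.rank ≤ y''.rank := by
    intro x'' y'' h''
    rw [hrk]
    exact Nat.find_min' hr ⟨x'', y'', h'', rfl⟩
  have hlt : y'.rank < Nat.find hex :=
    (hle x y ⟨hxy, hx, hy, hgood⟩).trans_lt (Pwg_rank_lt hy hne)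
  exact hmin _ hlt (Pwg_cmp hG h₀ hG' hle)

end PadDet.Eq
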