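import Pool.Agent.H.MP_d7db32_ag.Eq.L.Bas

/-!
# MP_d7db32_ag, Eq/F/Sqr: squares have lifts without transposition
-/

set_option autoImplicit false

namespace PadDet.Eq

open Matrix

variable {n m : ℕ} {L : Matrix (Fin m) (Fin m) ℂ}
  {M : Matrix (Fin n) (Fin n) ℂ →ₗ[ℂ] Matrix (Fin m) (Fin m) ℂ}

/-- The pencil is equivariant for `g`, in the sense of Landsberg and Ressayre. -/
def Eqt (L : Matrix (Fin m) (Fin m) ℂ)
    (M : Matrix (Fin n) (Fin n) ℂ →ₗ[ℂ] Matrix (Fin m) (Fin m) ℂ)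
    (g : Matrix (Fin n) (Fin n) ℂ → Matrix (Fin n) (Fin n) ℂ) : Prop :=
  ∃ A B : GL (Fin m) ℂ,
    (∀ X : Matrix (Fin n) (Fin n) ℂ, L + M (g X) =
      (A : Matrix (Fin m) (Fin m) ℂ) * (L + M X) * (B : Matrix (Fin m) (Fin m) ℂ)) ∨
    (∀ X : Matrix (Fin n) (Fin n) ℂ, L + M (g X) =
      (A : Matrix (Fin m) (Fin m) ℂ) * (L + M X)ᵀ * (B : Matrix (Fin m) (Fin m) ℂ))

theorem gl_inv (A : GL (Fin m) ℂ) :
    (A : Matrix (Fin m) (Fin m) ℂ) * ((A⁻¹ : GL (Fin m) ℂ) : Matrix (Fin m) (Fin m) ℂ) = 1 ∧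
    ((A⁻¹ : GL (Fin m) ℂ) : Matrix (Fin m) (Fin m) ℂ) * (A : Matrix (Fin m) (Fin m) ℂ) = 1 := by
  constructor
  · rw [← Units.val_mul, mul_inv_cancel, Units.val_one]
  · rw [← Units.val_mul, inv_mul_cancel, Units.val_one]

theorem gl_det (A : GL (Fin m) ℂ) : (A : Matrix (Fin m) (Fin m) ℂ).det ≠ 0 := by
  intro h0
  have h1 := congrArg Matrix.det (gl_inv A).1
  rw [Matrix.det_mul, h0, zero_mul, Matrix.det_one] at h1
  exact zero_ne_one h1

/-- Lifts without transposition. -/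
theorem eqv_of {g : Matrix (Fin n) (Fin n) ℂ → Matrix (Fin n) (Fin n) ℂ} (A B : GL (Fin m) ℂ)
    (h : ∀ X : Matrix (Fin n) (Fin n) ℂ, L + M (g X) =
      (A : Matrix (Fin m) (Fin m) ℂ) * (L + M X) * (B : Matrix (Fin m) (Fin m) ℂ)) :
    Eqv L M g := by
  refine ⟨A, ((B⁻¹ : GL (Fin m) ℂ) : Matrix (Fin m) (Fin m) ℂ), gl_det A, gl_det B⁻¹, fun X => ?_⟩
  rw [h X, Matrix.mul_assoc, (gl_inv B).1, Matrix.mul_one]

theorem eqv_comp {f g : Matrix (Fin n) (Fin n) ℂ → Matrix (Fin n) (Fin n) ℂ} (hf : Eqv L M f)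
    (hg : Eqv L M g) : Eqv L M (fun X => f (g X)) := by
  obtain ⟨A, B, hA, hB, h⟩ := hf
  obtain ⟨A', B', hA', hB', h'⟩ := hg
  refine ⟨A * A', B * B', ?_, ?_, fun X => ?_⟩
  · rw [Matrix.det_mul]
    exact mul_ne_zero hA hA'
  · rw [Matrix.det_mul]
    exact mul_ne_zero hB hB'
  · rw [Matrix.mul_assoc, h' X, ← Matrix.mul_assoc, h (g X), Matrix.mul_assoc]

theorem eqt_sq {g : Matrix (Fin n) (Fin n) ℂ → Matrix (Fin n) (Fin n) ℂ} (h : Eqt L M g) :
    Eqv L M (fun X => g (g X)) := by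
  obtain ⟨A, B, h⟩ := h
  have hB := gl_inv B
  have hA := gl_inv A
  rcases h with h | h
  · exact eqv_comp (eqv_of A B h) (eqv_of A B h)
  · refine ⟨A * (B : Matrix (Fin m) (Fin m) ℂ)ᵀ,
      ((B⁻¹ : GL (Fin m) ℂ) : Matrix (Fin m) (Fin m) ℂ) *
        ((A⁻¹ : GL (Fin m) ℂ) : Matrix (Fin m) (Fin m) ℂ)ᵀ, ?_, ?_, fun X => ?_⟩
    · rw [Matrix.det_mul, Matrix.det_transpose]
      exact mul_ne_zero (gl_det A) (gl_det B)
    · rw [Matrix.det_mul, Matrix.det_transpose]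
      exact mul_ne_zero (gl_det B⁻¹) (gl_det A⁻¹)
    · rw [h, h, Matrix.transpose_mul, Matrix.transpose_mul, Matrix.transpose_transpose]
      have e : (A : Matrix (Fin m) (Fin m) ℂ) * ((B : Matrix (Fin m) (Fin m) ℂ)ᵀ *
          ((L + M X) * (A : Matrix (Fin m) (Fin m) ℂ)ᵀ)) * (B : Matrix (Fin m) (Fin m) ℂ) *
          (((B⁻¹ : GL (Fin m) ℂ) : Matrix (Fin m) (Fin m) ℂ) *
            ((A⁻¹ : GL (Fin m) ℂ) : Matrix (Fin m) (Fin m) ℂ)ᵀ) =
          (A : Matrix (Fin m) (Fin m) ℂ) * (B : Matrix (Fin m) (Fin m) ℂ)ᵀ * (L + M X) *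
          ((A : Matrix (Fin m) (Fin m) ℂ)ᵀ * (((B : Matrix (Fin m) (Fin m) ℂ) *
            ((B⁻¹ : GL (Fin m) ℂ) : Matrix (Fin m) (Fin m) ℂ)) *
            ((A⁻¹ : GL (Fin m) ℂ) : Matrix (Fin m) (Fin m) ℂ)ᵀ)) := by
        simp only [Matrix.mul_assoc]
      rw [e, hB.1, Matrix.one_mul, ← Matrix.transpose_mul, hA.2, Matrix.transpose_one,
        Matrix.mul_one]

theorem eqt_tor (h : ∀ t : Fin n → ℂ, (∀ i, t i ^ 3 = 1) → Eqt L M (tor t)) (t : Fin n → ℂ)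
    (ht : ∀ i, t i ^ 3 = 1) : Eqv L M (tor t) := by
  have h1 := eqt_sq (h (fun i => t i ^ 2) fun i => by rw [← pow_mul, mul_comm, pow_mul, ht, one_pow])
  have h2 : (fun X => tor (fun i => t i ^ 2) (tor (fun i => t i ^ 2) X)) = tor t := by
    funext X
    ext i j
    unfold tor
    simp only [Matrix.of_apply]
    have e1 : t i ^ 2 * t i ^ 2 = t i := by
      have := ht i
      linear_combination t i * this
    have e2 : t j ^ 2 * t j ^ 2 = t j := by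
      have := ht j
      linear_combination t j * this
    calc t i ^ 2 * t j ^ 2 * (t i ^ 2 * t j ^ 2 * X i j) =
        (t i ^ 2 * t i ^ 2) * (t j ^ 2 * t j ^ 2) * X i j := by ring
      _ = t i * t j * X i j := by rw [e1, e2]
  rw [h2] at h1
  exact h1

theorem eqt_prm (h : ∀ σ : Equiv.Perm (Fin n), Equiv.Perm.sign σ = 1 → Eqt L M (prm σ))
    (σ : Equiv.Perm (Fin n)) (hσ : Equiv.Perm.sign σ = 1) : Eqv L M (prm σ) := by
  have h1 : σ ∈ Subgroup.closure {ρ : Equiv.Perm (Fin n) | ρ.IsThreeCycle} := by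
    rw [Equiv.Perm.closure_three_cycles_eq_alternating]
    exact Equiv.Perm.mem_alternatingGroup.2 hσ
  have h3 : ∀ ρ : Equiv.Perm (Fin n), ρ.IsThreeCycle → Eqv L M (prm ρ) := by
    intro ρ hρ
    have e1 := eqt_sq (h (ρ ^ 2) (by rw [map_pow, hρ.sign, one_pow]))
    have e2 : (fun X : Matrix (Fin n) (Fin n) ℂ => prm (ρ ^ 2) (prm (ρ ^ 2) X)) = prm ρ := by
      funext X
      have e3 : ρ ^ 2 * ρ ^ 2 = ρ := by
        rw [← pow_add, show 2 + 2 = 3 + 1 from rfl, pow_succ, ← hρ.orderOf, pow_orderOf_eq_one,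
          one_mul]
      have e4 : ∀ i, (ρ ^ 2) ((ρ ^ 2) i) = ρ i := fun i => by
        rw [← Equiv.Perm.mul_apply, e3]
      ext i j
      show X ((ρ ^ 2) ((ρ ^ 2) i)) ((ρ ^ 2) ((ρ ^ 2) j)) = X (ρ i) (ρ j)
      rw [e4, e4]
    rw [e2] at e1
    exact e1
  have h4 : Eqv L M (prm (1 : Equiv.Perm (Fin n))) :=
    ⟨1, 1, by rw [Matrix.det_one]; exact one_ne_zero, by rw [Matrix.det_one]; exact one_ne_zero,
      fun X => by rw [Matrix.one_mul, Matrix.mul_one]; rfl⟩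
  induction h1 using Subgroup.closure_induction with
  | mem x hx => exact h3 x hx
  | one => exact h4
  | mul x y hx hy ihx ihy =>
    have hx' : x ∈ alternatingGroup (Fin n) := by
      rw [← Equiv.Perm.closure_three_cycles_eq_alternating]
      exact hx
    have hy' : y ∈ alternatingGroup (Fin n) := by
      rw [← Equiv.Perm.closure_three_cycles_eq_alternating]
      exact hy
    have h5 := eqv_comp (ihy (Equiv.Perm.mem_alternatingGroup.1 hy'))
      (ihx (Equiv.Perm.mem_alternatingGroup.1 hx'))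
    exact h5
  | inv x hx ihx =>
    have hx' : x ∈ alternatingGroup (Fin n) := by
      rw [← Equiv.Perm.closure_three_cycles_eq_alternating]
      exact hx
    obtain ⟨A, B, hA, hB, hAB⟩ := ihx (Equiv.Perm.mem_alternatingGroup.1 hx')
    refine ⟨A⁻¹, B⁻¹, ?_, ?_, fun X => ?_⟩
    · rw [Matrix.det_nonsing_inv, Ring.inverse_eq_inv']
      exact inv_ne_zero hA
    · rw [Matrix.det_nonsing_inv, Ring.inverse_eq_inv']
      exact inv_ne_zero hB
    · have e1 := hAB (prm x⁻¹ X)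
      have e2 : prm x (prm x⁻¹ X) = X := by
        ext i j
        show X (x⁻¹ (x i)) (x⁻¹ (x j)) = X i j
        simp
      rw [e2] at e1
      calc A⁻¹ * (L + M X) = A⁻¹ * ((L + M X) * (B * B⁻¹)) := by
            rw [Matrix.mul_nonsing_inv B (Ne.isUnit hB), Matrix.mul_one]
        _ = A⁻¹ * ((L + M X) * B) * B⁻¹ := by simp only [Matrix.mul_assoc]
        _ = (A⁻¹ * A) * (L + M (prm x⁻¹ X)) * B⁻¹ := by rw [← e1]; simp only [Matrix.mul_assoc]
        _ = (L + M (prm x⁻¹ X)) * B⁻¹ := by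
            rw [Matrix.nonsing_inv_mul A (Ne.isUnit hA), Matrix.one_mul]

end PadDet.Eq
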