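import Pool.Agent.H.MP_d7db32_ag.Eq.F.MkA
import Pool.Agent.H.MP_d7db32_ag.Eq.F.Pwg
import Pool.Agent.H.MP_d7db32_ag.Eq.F.Sqr
import Pool.Agent.H.MP_d7db32_ag.Eq.CstZ
import Pool.Agent.H.MP_d7db32_ag.Eq.Low

/-!
# MP_d7db32_ag, Eq/F/AsA: the bound for the finite group `μ₃ ≀ A_n`, `n ≥ 7`, in the sense of
Landsberg and Ressayre
-/

set_option autoImplicit false

namespace PadDet.Eq

open Matrix

theorem low_alt0 (k m : ℕ) (hk : 3 ≤ k) {c : ℂ} (hc : c ≠ 0) (L : Matrix (Fin m) (Fin m) ℂ)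
    (M : Matrix (Fin (2 * k + 1)) (Fin (2 * k + 1)) ℂ →ₗ[ℂ] Matrix (Fin m) (Fin m) ℂ)
    (hdet : ∀ X, (L + M X).det = c * Fv X)
    (hT : ∀ t : Fin (2 * k + 1) → ℂ, (∀ i, t i ^ 3 = 1) → Eqv L M (tor t))
    (hS : ∀ σ : Equiv.Perm (Fin (2 * k + 1)), Equiv.Perm.sign σ = 1 → Eqv L M (prm σ)) :
    2 ^ (2 * k + 1) - 1 ≤ m := by
  have hG : ∀ g ∈ {g : Matrix (Fin (2 * k + 1)) (Fin (2 * k + 1)) ℂ →
      Matrix (Fin (2 * k + 1)) (Fin (2 * k + 1)) ℂ |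
      (∃ t : Fin (2 * k + 1) → ℂ, (∀ i, t i ^ 3 = 1) ∧ g = tor t) ∨
      ∃ σ : Equiv.Perm (Fin (2 * k + 1)), Equiv.Perm.sign σ = 1 ∧ g = prm σ},
      ∀ X, Fv X ≠ 0 → Fv (g X) ≠ 0 := by
    rintro g (⟨t, ht, rfl⟩ | ⟨σ, -, rfl⟩) X hX
    · have ht0 : ∀ i, t i ≠ 0 := fun i h0 => by
        have := ht i
        rw [h0] at this
        norm_num at this
      rw [Fv_tor ht0]
      exact mul_ne_zero (pow_ne_zero _ (Finset.prod_ne_zero_iff.2 fun i _ => ht0 i)) hX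
    · rw [Fv_prm]
      exact hX
  obtain ⟨m', hm', c', L', M', h', hP⟩ := exists_primg (c := c) (L := L) (M := M) hG
    ⟨hc, hdet, by
      rintro g (⟨t, ht, rfl⟩ | ⟨σ, hσ, rfl⟩)
      · exact hT t ht
      · exact hS σ hσ⟩
  refine le_trans ?_ hm'
  obtain ⟨X, hX⟩ := exists_ne k
  have hm0 : m' ≠ 0 := by
    rintro rfl
    have h2 := h'.det 0
    rw [Matrix.det_fin_zero] at h2
    have h3 : Fv (0 : Matrix (Fin (2 * k + 1)) (Fin (2 * k + 1)) ℂ) = 0 := by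
      unfold Fv
      rw [Matrix.transpose_zero, add_zero, Matrix.mul_zero, Matrix.trace_zero]
    rw [h3, mul_zero] at h2
    exact one_ne_zero h2
  obtain ⟨q, hq⟩ : ∃ q : ℂ, IsPrimitiveRoot q 3 :=
    ⟨_, Complex.isPrimitiveRoot_exp 3 (by norm_num)⟩
  have q3 : q ^ 3 = 1 := hq.pow_eq_one
  have q1 : q ≠ 1 := hq.ne_one (by norm_num)
  obtain ⟨A, B, Z', Z, R⟩ := rawA hk h'.c0 h'.det hP hm0 q3
    (fun t ht => h'.eqv _ (Or.inl ⟨t, ht, rfl⟩)) (fun σ hσ => h'.eqv _ (Or.inr ⟨σ, hσ, rfl⟩))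
  obtain ⟨c₁, L₁, N, w, w', P, P', C⟩ := mk_a h'.c0 h'.det ⟨X, hX⟩ q3 q1 R
  obtain ⟨z, z', G⟩ := toZa C (by omega) C.w3 C.w3' (C.const (by omega)).1 (C.const (by omega)).2
  exact cstZ G hX

theorem low_alt (k m : ℕ) (hk : 3 ≤ k) {c : ℂ} (hc : c ≠ 0) (L : Matrix (Fin m) (Fin m) ℂ)
    (M : Matrix (Fin (2 * k + 1)) (Fin (2 * k + 1)) ℂ →ₗ[ℂ] Matrix (Fin m) (Fin m) ℂ)
    (hdet : ∀ X, (L + M X).det = c * Fv X)
    (hT : ∀ t : Fin (2 * k + 1) → ℂ, (∀ i, t i ^ 3 = 1) → Eqt L M (tor t))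
    (hS : ∀ σ : Equiv.Perm (Fin (2 * k + 1)), Equiv.Perm.sign σ = 1 → Eqt L M (prm σ)) :
    2 ^ (2 * k + 1) - 1 ≤ m :=
  low_alt0 k m hk hc L M hdet (eqt_tor hT) (eqt_prm hS)

end PadDet.Eq
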