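import Pool.Agent.H.MP_d7db32_ag.Eq.F.Sys

/-!
# MP_d7db32_ag, Eq/F/Avg: averages of lifts

`ψ = χ r`, `r = z b z⁻¹ a⁻¹ ∈ S 1`, so `z b = r a z`. `(r a) ^ 3 = z b ^ 3 z⁻¹ = 1` and
`(r a) ^ 3 = r (a r a⁻¹) (a ^ 2 r a ^ (-2)) a ^ 3`, so `ψ ^ 3 = 1` (`conj`, `chim`). Let
`z' = (1 / 3) (z + ψ⁻¹ a⁻¹ z b + ψ⁻² a⁻² z b ^ 2)`. With `T x = ψ⁻¹ a⁻¹ x b`, `T ^ 3 = 1`, this is the mean of
`z, T z, T ^ 2 z`, so `T z' = z'`. `z' z⁻¹ = (1 / 3) (1 + ψ⁻¹ a⁻¹ r a + ψ⁻² (a⁻² r a ^ 2) (a⁻¹ r a))` is in `S 1` with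
`χ = 1`, so it is a unit.
-/

set_option autoImplicit false

namespace PadDet.Eq

variable {E : Type} [Ring E] [Algebra ℂ E] {Γ : Type} [Group Γ] {S : Γ → Submodule ℂ E}
  {χ : E →ₗ[ℂ] ℂ}

theorem Sys.avg (h : Sys S χ) {g g' k : Γ} (hk : k * g' = g * k) {a b z : Eˣ}
    (ha : (a : E) ∈ S g) (hb : (b : E) ∈ S g') (hz : (z : E) ∈ S k) (a3 : a ^ 3 = 1)
    (b3 : b ^ 3 = 1) :
    χ ((z * b * z⁻¹ * a⁻¹ : Eˣ) : E) ^ 3 = 1 ∧ ∃ z' : Eˣ, (z' : E) ∈ S k ∧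
      (z' : E) * b = χ ((z * b * z⁻¹ * a⁻¹ : Eˣ) : E) • ((a : E) * z') ∧
      ∀ (a₁ b₁ : E) (θ : ℂ), a₁ * a = a * a₁ → b₁ * b = b * b₁ →
        (z : E) * b₁ = θ • (a₁ * z) → (z' : E) * b₁ = θ • (a₁ * z') := by
  obtain ⟨ψ, hψ⟩ : ∃ ψ, ψ = χ ((z * b * z⁻¹ * a⁻¹ : Eˣ) : E) := ⟨_, rfl⟩
  rw [← hψ]
  have hr := h.cmm hk ha hb hz
  obtain ⟨r, hrd⟩ : ∃ r : Eˣ, r = z * b * z⁻¹ * a⁻¹ := ⟨_, rfl⟩
  rw [← hrd] at hr hψ
  have hai : ((a⁻¹ : Eˣ) : E) ∈ S g⁻¹ := h.inv ha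
  have hzi := h.inv hz
  have hTS : ∀ x ∈ S k, ((a⁻¹ : Eˣ) : E) * x * b ∈ S k := by
    intro x hx
    have h1 := h.mul (h.mul hai hx) hb
    rwa [mul_assoc g⁻¹, hk, inv_mul_cancel_left] at h1
  have hS1 : ∀ x ∈ S k, x * ((z⁻¹ : Eˣ) : E) ∈ S 1 := by
    intro x hx
    have h2 := h.mul hx hzi
    rwa [mul_inv_cancel] at h2
  have hra : (r : E) * (a : E) = (z : E) * ((b : E) * ((z⁻¹ : Eˣ) : E)) := by
    have h1 : r * a = z * (b * z⁻¹) := by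
      rw [hrd, inv_mul_cancel_right, mul_assoc]
    have h2 := congrArg Units.val h1
    simpa only [Units.val_mul] using h2
  have hTχ : ∀ x ∈ S k, χ (((a⁻¹ : Eˣ) : E) * x * b * ((z⁻¹ : Eˣ) : E)) =
      χ (x * ((z⁻¹ : Eˣ) : E)) * ψ := by
    intro x hx
    have h1 := hS1 x hx
    have h3 := h.cj hai h1
    have h4 := h.cj hai hr
    have e : ((a⁻¹ : Eˣ) : E) * x * b * ((z⁻¹ : Eˣ) : E) =
        (((a⁻¹ : Eˣ) : E) * (x * ((z⁻¹ : Eˣ) : E)) * (((a⁻¹)⁻¹ : Eˣ) : E)) *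
          (((a⁻¹ : Eˣ) : E) * (r : E) * (((a⁻¹)⁻¹ : Eˣ) : E)) := by
      rw [inv_inv]
      simp only [mul_assoc, Units.mul_inv_cancel_left, hra, Units.inv_mul_cancel_left]
    rw [e, h.chim h3 h4, h.conj hai h1, h.conj hai hr, hψ]
  obtain ⟨p1, hp1⟩ : ∃ p1 : E, p1 = ((a⁻¹ : Eˣ) : E) * z * b := ⟨_, rfl⟩
  obtain ⟨p2, hp2⟩ : ∃ p2 : E, p2 = ((a⁻¹ : Eˣ) : E) * p1 * b := ⟨_, rfl⟩
  have hp3 : ((a⁻¹ : Eˣ) : E) * p2 * b = z := by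
    have h1 : (a⁻¹ * (a⁻¹ * (a⁻¹ * z * b) * b) * b : Eˣ) = z := by
      have a3' : a * a * a = 1 := by rw [← a3, pow_succ, pow_two]
      have b3' : b * b * b = 1 := by rw [← b3, pow_succ, pow_two]
      calc (a⁻¹ * (a⁻¹ * (a⁻¹ * z * b) * b) * b : Eˣ) = (a * a * a)⁻¹ * z * (b * b * b) := by group
        _ = z := by rw [a3', b3', inv_one, one_mul, mul_one]
    have h2 := congrArg Units.val h1
    rw [hp2, hp1]
    simpa only [Units.val_mul] using h2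
  have hS1' : p1 ∈ S k := by
    rw [hp1]
    exact hTS _ hz
  have hS2' : p2 ∈ S k := by
    rw [hp2]
    exact hTS _ hS1'
  have hχ0 : χ ((z : E) * ((z⁻¹ : Eˣ) : E)) = 1 := by
    rw [Units.mul_inv, h.chi1]
  have hχ1 : χ (p1 * ((z⁻¹ : Eˣ) : E)) = ψ := by
    rw [hp1, hTχ _ hz, hχ0, one_mul]
  have hχ2 : χ (p2 * ((z⁻¹ : Eˣ) : E)) = ψ * ψ := by
    rw [hp2, hTχ _ hS1', hχ1]
  have hψ3 : ψ ^ 3 = 1 := by
    have h1 := hTχ _ hS2'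
    rw [hp3, hχ0, hχ2] at h1
    rw [h1]
    ring
  obtain ⟨y, hy⟩ : ∃ y : E, y = (3⁻¹ : ℂ) • ((z : E) + ψ ^ 2 • p1 + ψ • p2) := ⟨_, rfl⟩
  have hyS : y ∈ S k := by
    rw [hy]
    exact (S k).smul_mem _ ((S k).add_mem ((S k).add_mem hz ((S k).smul_mem _ hS1'))
      ((S k).smul_mem _ hS2'))
  have hyχ : χ (y * ((z⁻¹ : Eˣ) : E)) = 1 := by
    rw [hy, smul_mul_assoc, add_mul, add_mul, smul_mul_assoc, smul_mul_assoc, map_smul, map_add,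
      map_add, map_smul, map_smul, hχ0, hχ1, hχ2]
    simp only [smul_eq_mul]
    have h1 : (3⁻¹ : ℂ) * (1 + ψ ^ 2 * ψ + ψ * (ψ * ψ)) = 3⁻¹ * (1 + 2 * ψ ^ 3) := by ring
    rw [h1, hψ3]
    norm_num
  obtain ⟨u, hu⟩ := h.unit (hS1 y hyS) (by rw [hyχ]; exact one_ne_zero)
  have hz' : ((u * z : Eˣ) : E) = y := by
    rw [Units.val_mul, hu, mul_assoc, Units.inv_mul, mul_one]
  refine ⟨hψ3, u * z, ?_, ?_, ?_⟩
  · rw [hz']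
    exact hyS
  · rw [hz']
    have hT : ∀ x : E, x * (b : E) = (a : E) * (((a⁻¹ : Eˣ) : E) * x * b) := by
      intro x
      rw [mul_assoc, Units.mul_inv_cancel_left]
    have e0 : (z : E) * b = a * p1 := by rw [hT, ← hp1]
    have e1 : p1 * b = a * p2 := by rw [hT, ← hp2]
    have e2 : p2 * b = a * z := by rw [hT, hp3]
    rw [hy, smul_mul_assoc, add_mul, add_mul, smul_mul_assoc, smul_mul_assoc, e0, e1, e2,
      mul_smul_comm, mul_add, mul_add, mul_smul_comm, mul_smul_comm]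
    calc (3⁻¹ : ℂ) • ((a : E) * p1 + ψ ^ 2 • ((a : E) * p2) + ψ • ((a : E) * z)) =
        (3⁻¹ : ℂ) • (ψ ^ 3 • ((a : E) * p1) + ψ ^ 2 • ((a : E) * p2) + ψ • ((a : E) * z)) := by
          rw [hψ3, one_smul]
      _ = _ := by module
  · intro a₁ b₁ θ ha₁ hb₁ hzz
    rw [hz']
    have hai₁ : ((a⁻¹ : Eˣ) : E) * a₁ = a₁ * ((a⁻¹ : Eˣ) : E) := by
      have h1 : Commute a₁ (a : E) := ha₁
      exact (h1.units_inv_right).symm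
    have hI : ∀ x : E, x * b₁ = θ • (a₁ * x) →
        (((a⁻¹ : Eˣ) : E) * x * b) * b₁ = θ • (a₁ * (((a⁻¹ : Eˣ) : E) * x * b)) := by
      intro x hx
      calc (((a⁻¹ : Eˣ) : E) * x * b) * b₁ = ((a⁻¹ : Eˣ) : E) * (x * b₁) * b := by
            rw [mul_assoc, ← hb₁]
            simp only [mul_assoc]
        _ = θ • ((((a⁻¹ : Eˣ) : E) * a₁) * x * b) := by
            rw [hx, mul_smul_comm, smul_mul_assoc]
            simp only [mul_assoc]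
        _ = _ := by
            rw [hai₁]
            simp only [mul_assoc]
    have i1 : p1 * b₁ = θ • (a₁ * p1) := by
      rw [hp1]
      exact hI _ hzz
    have i2 : p2 * b₁ = θ • (a₁ * p2) := by
      rw [hp2]
      exact hI _ i1
    rw [hy, smul_mul_assoc, add_mul, add_mul, smul_mul_assoc, smul_mul_assoc, hzz, i1, i2,
      mul_smul_comm, mul_add, mul_add, mul_smul_comm, mul_smul_comm]
    module

end PadDet.Eq
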