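import Mathlib

/-!
# MP_d7db32_ag, Eq/F/Cub: cube roots of unipotent elements

`Polynomial.existsUnique_nilpotent_sub_and_aeval_eq_zero` in the commutative ring `Algebra.adjoin ℂ {x}` for `X ^ 3 - C x` at `1`: `1 - x` is nilpotent, the derivative
`3` is a unit. Elements of `Algebra.adjoin ℂ {x}` are polynomials in `x` (`Algebra.adjoin_singleton_eq_range_aeval`).
-/

set_option autoImplicit false

namespace PadDet.Eq

theorem cube_root {E : Type} [Ring E] [Algebra ℂ E] {x : E} (hx : IsNilpotent (x - 1)) :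
    ∃ p : Polynomial ℂ, (Polynomial.aeval x p) ^ 3 = x ∧ IsUnit (Polynomial.aeval x p) := by
  obtain ⟨N, hN⟩ := hx
  let R : Type := Polynomial ℂ ⧸ Ideal.span {((Polynomial.X : Polynomial ℂ) - 1) ^ N}
  let m : Polynomial ℂ →+* R :=
    Ideal.Quotient.mk (Ideal.span {((Polynomial.X : Polynomial ℂ) - 1) ^ N})
  have h0 : m (((Polynomial.X : Polynomial ℂ) - 1) ^ N) = 0 :=
    Ideal.Quotient.eq_zero_iff_mem.mpr (Ideal.subset_span rfl)
  have h1 : IsNilpotent (Polynomial.aeval (1 : R)
      (Polynomial.X ^ 3 - Polynomial.C (m Polynomial.X) : Polynomial R)) := by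
    have h2 : Polynomial.aeval (1 : R)
        (Polynomial.X ^ 3 - Polynomial.C (m Polynomial.X) : Polynomial R) =
        - (m Polynomial.X - 1) := by
      simp
    rw [h2, isNilpotent_neg_iff]
    refine ⟨N, ?_⟩
    rw [← h0, map_pow, map_sub, map_one]
  have h3 : IsUnit (Polynomial.aeval (1 : R) (Polynomial.derivative
      (Polynomial.X ^ 3 - Polynomial.C (m Polynomial.X) : Polynomial R))) := by
    have h4 : Polynomial.aeval (1 : R) (Polynomial.derivative
        (Polynomial.X ^ 3 - Polynomial.C (m Polynomial.X) : Polynomial R)) = 2 + 1 := by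
      simp
    have h5 : (2 + 1 : R) = m (Polynomial.C 3) := by
      have h6 : (Polynomial.C (3 : ℂ) : Polynomial ℂ) = 2 + 1 := by
        rw [← map_ofNat (Polynomial.C : ℂ →+* Polynomial ℂ) 2,
          ← map_one (Polynomial.C : ℂ →+* Polynomial ℂ), ← map_add]
        norm_num
      rw [h6, map_add, map_one, map_ofNat]
    rw [h4, h5]
    exact ((isUnit_iff_ne_zero.mpr (by norm_num : (3 : ℂ) ≠ 0)).map Polynomial.C).map m
  obtain ⟨r, ⟨-, hr⟩, -⟩ := Polynomial.existsUnique_nilpotent_sub_and_aeval_eq_zero h1 h3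
  obtain ⟨p, hp⟩ := Ideal.Quotient.mk_surjective r
  have h5 : m (p ^ 3 - Polynomial.X) = 0 := by
    have h6 : Polynomial.aeval r
        (Polynomial.X ^ 3 - Polynomial.C (m Polynomial.X) : Polynomial R) =
        r ^ 3 - m Polynomial.X := by
      simp
    rw [h6] at hr
    rw [map_sub, map_pow, ← hr]
    rw [← hp]
  obtain ⟨q, hq⟩ := Ideal.mem_span_singleton.mp (Ideal.Quotient.eq_zero_iff_mem.mp h5)
  have h7 : (Polynomial.aeval x p) ^ 3 = x := by
    have h8 := congrArg (Polynomial.aeval x) hq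
    rw [map_sub, map_pow, Polynomial.aeval_X, map_mul, map_pow, map_sub, Polynomial.aeval_X,
      map_one, hN, zero_mul] at h8
    exact sub_eq_zero.mp h8
  refine ⟨p, h7, ?_⟩
  have h9 : IsUnit x := by
    have h11 : IsNilpotent (x - 1) := ⟨N, hN⟩
    have h10 := h11.isUnit_add_one
    rwa [sub_add_cancel] at h10
  rw [← h7] at h9
  exact (isUnit_pow_iff (three_ne_zero)).mp h9

end PadDet.Eq
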