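import Pool.Agent.H.MP_d7db32_ag.Eq.F.Sys
import Pool.Agent.H.MP_d7db32_ag.Eq.F.Cub
import Pool.Agent.H.MP_d7db32_ag.Eq.L.Lab

/-!
# MP_d7db32_ag, Eq/F/Chi: the lifts of a primitive pencil

`Pr m` = pairs `(A, B)`, `Lif L M g` = the pairs with `A (L + M X) = (L + M (g X)) B`, `chr m (A, B) = trace B / m`.
`sys_of`: by `endo_nil` (L/Lab) for `(x, y) ∈ Lif 1` there is a number `z` with `x - z`, `y - z` nilpotent; then `trace y = m z`, so `z = chr m (x, y)`.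
`chim`: the elements of `Lif 1` with `chr = 0` are nilpotent (private lemma), and the product of a nilpotent `x ∈ Lif 1` with any `y ∈ Lif 1` has `chr = 0`: otherwise
`x y` is a unit (number not zero plus nilpotent), so `x` has a right inverse, but `x` is nilpotent, `m ≠ 0` (`E` nontrivial). Then
`x y = (z + x') (z' + y')`, linear. `unit`: a nonzero number plus a nilpotent element is a unit. `conj`: `Matrix.trace_mul_cycle`.
`cube`: `cube_root` for `x = 1 + nilpotent`; polynomials in `x ∈ Lif 1` are in `Lif 1`, and commute with everything that commutes with `x`.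
-/

set_option autoImplicit false

namespace PadDet.Eq

open Matrix

/-- Pairs of matrices. -/
abbrev Pr (m : ℕ) : Type := Matrix (Fin m) (Fin m) ℂ × Matrix (Fin m) (Fin m) ℂ

/-- The pairs `(A, B)` with `A (L + M X) = (L + M (g X)) B`. -/
def Lif {n m : ℕ} (L : Matrix (Fin m) (Fin m) ℂ)
    (M : Matrix (Fin n) (Fin n) ℂ →ₗ[ℂ] Matrix (Fin m) (Fin m) ℂ)
    (g : Equiv.Perm (Matrix (Fin n) (Fin n) ℂ)) : Submodule ℂ (Pr m) where
  carrier := {p | Mor L M g p.1 p.2}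
  add_mem' := by
    intro p p' h h' X
    show (p.1 + p'.1) * (L + M X) = (L + M (g X)) * (p.2 + p'.2)
    rw [Matrix.add_mul, h X, h' X, ← Matrix.mul_add]
  zero_mem' := by
    intro X
    show 0 * (L + M X) = (L + M (g X)) * 0
    rw [Matrix.zero_mul, Matrix.mul_zero]
  smul_mem' := by
    intro c p h X
    show (c • p.1) * (L + M X) = (L + M (g X)) * (c • p.2)
    rw [Matrix.smul_mul, Matrix.mul_smul, h X]

/-- The normalized trace. -/
noncomputable def chr (m : ℕ) : Pr m →ₗ[ℂ] ℂ :=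
  (m : ℂ)⁻¹ • (Matrix.traceLinearMap (Fin m) ℂ ℂ ∘ₗ LinearMap.snd ℂ _ _)

theorem chr_apply {m : ℕ} (p : Pr m) : chr m p = (m : ℂ)⁻¹ * p.2.trace := rfl

theorem mem_Lif {n m : ℕ} {L : Matrix (Fin m) (Fin m) ℂ}
    {M : Matrix (Fin n) (Fin n) ℂ →ₗ[ℂ] Matrix (Fin m) (Fin m) ℂ}
    {g : Equiv.Perm (Matrix (Fin n) (Fin n) ℂ)} {p : Pr m} :
    p ∈ Lif L M g ↔ Mor L M g p.1 p.2 := Iff.rfl

/-- An element of `Lif 1` is its character plus a nilpotent element. -/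
private theorem Chi_nil {k m : ℕ} {c : ℂ} {L : Matrix (Fin m) (Fin m) ℂ}
    {M : Matrix (Fin (2 * k + 1)) (Fin (2 * k + 1)) ℂ →ₗ[ℂ] Matrix (Fin m) (Fin m) ℂ}
    (hc : c ≠ 0) (hdet : ∀ X, (L + M X).det = c * Fv X) (hP : Prim L M) (hm : m ≠ 0)
    {p : Pr m} (hp : p ∈ Lif L M 1) : IsNilpotent (p - chr m p • (1 : Pr m)) := by
  obtain ⟨z, h1, h2⟩ := endo_nil hc hdet hP (x := p.1) (y := p.2) hp
  rw [← Matrix.smul_one_eq_diagonal] at h1 h2
  have h3 : IsNilpotent (p.2 - z • (1 : Matrix (Fin m) (Fin m) ℂ)) := ⟨m, h2⟩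
  have h4 := (Matrix.isNilpotent_trace_of_isNilpotent h3).eq_zero
  rw [Matrix.trace_sub, Matrix.trace_smul, Matrix.trace_one, Fintype.card_fin, sub_eq_zero,
    smul_eq_mul] at h4
  have h5 : chr m p = z := by
    rw [chr_apply, h4, mul_comm z, ← mul_assoc, inv_mul_cancel₀ (Nat.cast_ne_zero.2 hm), one_mul]
  rw [h5]
  refine ⟨m, Prod.ext ?_ ?_⟩
  · rw [Prod.pow_fst]
    exact h1
  · rw [Prod.pow_snd]
    exact h2

private theorem Chi_mul {n m : ℕ} {L : Matrix (Fin m) (Fin m) ℂ}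
    {M : Matrix (Fin n) (Fin n) ℂ →ₗ[ℂ] Matrix (Fin m) (Fin m) ℂ}
    {g h : Equiv.Perm (Matrix (Fin n) (Fin n) ℂ)} {x y : Pr m} (hx : x ∈ Lif L M g)
    (hy : y ∈ Lif L M h) : x * y ∈ Lif L M (g * h) := by
  intro X
  show (x.1 * y.1) * (L + M X) = (L + M (g (h X))) * (x.2 * y.2)
  rw [Matrix.mul_assoc, hy X, ← Matrix.mul_assoc, hx (h X), Matrix.mul_assoc]

private theorem Chi_one {n m : ℕ} {L : Matrix (Fin m) (Fin m) ℂ}
    {M : Matrix (Fin n) (Fin n) ℂ →ₗ[ℂ] Matrix (Fin m) (Fin m) ℂ} :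
    (1 : Pr m) ∈ Lif L M 1 := by
  intro X
  show (1 : Matrix (Fin m) (Fin m) ℂ) * (L + M X) = (L + M X) * 1
  rw [Matrix.one_mul, Matrix.mul_one]

private theorem Chi_mul1 {n m : ℕ} {L : Matrix (Fin m) (Fin m) ℂ}
    {M : Matrix (Fin n) (Fin n) ℂ →ₗ[ℂ] Matrix (Fin m) (Fin m) ℂ} {x y : Pr m}
    (hx : x ∈ Lif L M 1) (hy : y ∈ Lif L M 1) : x * y ∈ Lif L M 1 := by
  have h := Chi_mul hx hy
  rwa [one_mul] at h

private theorem Chi_pow {n m : ℕ} {L : Matrix (Fin m) (Fin m) ℂ}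
    {M : Matrix (Fin n) (Fin n) ℂ →ₗ[ℂ] Matrix (Fin m) (Fin m) ℂ} {x : Pr m}
    (hx : x ∈ Lif L M 1) (i : ℕ) : x ^ i ∈ Lif L M 1 := by
  induction i with
  | zero => rw [pow_zero]; exact Chi_one
  | succ i ih => rw [pow_succ]; exact Chi_mul1 ih hx

private theorem Chi_aeval {n m : ℕ} {L : Matrix (Fin m) (Fin m) ℂ}
    {M : Matrix (Fin n) (Fin n) ℂ →ₗ[ℂ] Matrix (Fin m) (Fin m) ℂ} {x : Pr m}
    (hx : x ∈ Lif L M 1) (p : Polynomial ℂ) : Polynomial.aeval x p ∈ Lif L M 1 := by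
  rw [Polynomial.aeval_eq_sum_range]
  exact Submodule.sum_mem _ fun i _ => Submodule.smul_mem _ _ (Chi_pow hx i)

private theorem Chi_comm {E : Type} [Ring E] [Algebra ℂ E] {x y : E} (h : y * x = x * y)
    (p : Polynomial ℂ) : y * Polynomial.aeval x p = Polynomial.aeval x p * y := by
  rw [Polynomial.aeval_eq_sum_range, Finset.mul_sum, Finset.sum_mul]
  refine Finset.sum_congr rfl fun i _ => ?_
  rw [mul_smul_comm, smul_mul_assoc]
  congr 1
  exact (Commute.pow_right h i)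

/-- A nilpotent element of a nontrivial ring has no right inverse. -/
private theorem Chi_noinv {E : Type} [Ring E] [Nontrivial E] {x r : E} (hx : IsNilpotent x)
    (h : x * r = 1) : False := by
  obtain ⟨j, hj⟩ := hx
  have h1 : ∀ i : ℕ, x ^ i * r ^ i = 1 := by
    intro i
    induction i with
    | zero => rw [pow_zero, pow_zero, one_mul]
    | succ i ih =>
      rw [pow_succ, pow_succ' r, mul_assoc, ← mul_assoc x, h, one_mul, ih]
  have h2 := h1 j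
  rw [hj, zero_mul] at h2
  exact zero_ne_one h2

private theorem Chi_unit {E : Type} [Ring E] [Algebra ℂ E] {x : E} {z : ℂ} (hz : z ≠ 0)
    (h : IsNilpotent (x - z • (1 : E))) : IsUnit x := by
  have h1 : IsUnit (z • (1 : E)) := by
    rw [← Algebra.algebraMap_eq_smul_one]
    exact (IsUnit.mk0 z hz).map (algebraMap ℂ E)
  have h2 : Commute (x - z • (1 : E)) (z • (1 : E)) := by
    rw [← Algebra.algebraMap_eq_smul_one]
    exact (Algebra.commutes z _).symm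
  have h3 := h.isUnit_add_left_of_commute h1 h2
  rwa [add_sub_cancel] at h3

theorem sys_of {k m : ℕ} {c : ℂ} {L : Matrix (Fin m) (Fin m) ℂ}
    {M : Matrix (Fin (2 * k + 1)) (Fin (2 * k + 1)) ℂ →ₗ[ℂ] Matrix (Fin m) (Fin m) ℂ}
    (hc : c ≠ 0) (hdet : ∀ X, (L + M X).det = c * Fv X) (hP : Prim L M) (hm : m ≠ 0) :
    Sys (Lif L M) (chr m) := by
  have hne : Nonempty (Fin m) := ⟨⟨0, Nat.pos_of_ne_zero hm⟩⟩
  have hm' : (m : ℂ) ≠ 0 := Nat.cast_ne_zero.2 hm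
  have chi1 : chr m 1 = 1 := by
    rw [chr_apply]
    show (m : ℂ)⁻¹ * (1 : Matrix (Fin m) (Fin m) ℂ).trace = 1
    rw [Matrix.trace_one, Fintype.card_fin, inv_mul_cancel₀ hm']
  have nil0 : ∀ {x y : Pr m}, x ∈ Lif L M 1 → y ∈ Lif L M 1 → IsNilpotent x →
      chr m (x * y) = 0 := by
    intro x y hx hy hn
    by_contra hne'
    obtain ⟨u, hu⟩ := Chi_unit hne' (Chi_nil hc hdet hP hm (Chi_mul1 hx hy))
    refine Chi_noinv (r := y * ((u⁻¹ : (Pr m)ˣ) : Pr m)) hn ?_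
    rw [← mul_assoc, ← hu, Units.mul_inv]
  refine ⟨Chi_one, fun hx hy => Chi_mul hx hy, ?_, chi1, ?_, ?_, ?_, ?_⟩
  · intro g u hu Y
    have h1 := hu (g⁻¹ Y)
    rw [← Equiv.Perm.mul_apply, mul_inv_cancel, Equiv.Perm.one_apply] at h1
    have e1 : ((u⁻¹ : (Pr m)ˣ) : Pr m).1 * (u : Pr m).1 = 1 := congrArg Prod.fst u.inv_mul
    have e2 : (u : Pr m).2 * ((u⁻¹ : (Pr m)ˣ) : Pr m).2 = 1 := congrArg Prod.snd u.mul_inv
    calc ((u⁻¹ : (Pr m)ˣ) : Pr m).1 * (L + M Y)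
        = ((u⁻¹ : (Pr m)ˣ) : Pr m).1 * ((L + M Y) *
            ((u : Pr m).2 * ((u⁻¹ : (Pr m)ˣ) : Pr m).2)) := by rw [e2, Matrix.mul_one]
      _ = ((u⁻¹ : (Pr m)ˣ) : Pr m).1 * ((L + M Y) * (u : Pr m).2) *
            ((u⁻¹ : (Pr m)ˣ) : Pr m).2 := by simp only [Matrix.mul_assoc]
      _ = (((u⁻¹ : (Pr m)ˣ) : Pr m).1 * (u : Pr m).1) * (L + M (g⁻¹ Y)) *
            ((u⁻¹ : (Pr m)ˣ) : Pr m).2 := by rw [← h1]; simp only [Matrix.mul_assoc]
      _ = (L + M (g⁻¹ Y)) * ((u⁻¹ : (Pr m)ˣ) : Pr m).2 := by rw [e1, Matrix.one_mul]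
  · intro x y hx hy
    have hx' : x - chr m x • (1 : Pr m) ∈ Lif L M 1 :=
      Submodule.sub_mem _ hx (Submodule.smul_mem _ _ Chi_one)
    have h1 := nil0 hx' hy (Chi_nil hc hdet hP hm hx)
    rw [sub_mul, map_sub, smul_mul_assoc, one_mul, map_smul, smul_eq_mul, sub_eq_zero] at h1
    exact h1
  · intro x hx h
    exact Chi_unit h (Chi_nil hc hdet hP hm hx)
  · intro g u x _ _
    rw [chr_apply, chr_apply]
    congr 1
    show ((u : Pr m).2 * x.2 * ((u⁻¹ : (Pr m)ˣ) : Pr m).2).trace = x.2.trace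
    have e1 : ((u⁻¹ : (Pr m)ˣ) : Pr m).2 * (u : Pr m).2 = 1 := congrArg Prod.snd u.inv_mul
    rw [Matrix.trace_mul_comm, ← Matrix.mul_assoc, e1, Matrix.one_mul]
  · intro x hx h
    have h1 := Chi_nil hc hdet hP hm hx
    rw [h, one_smul] at h1
    obtain ⟨p, hp, u, hu⟩ := cube_root h1
    refine ⟨u, ?_, ?_, ?_⟩
    · rw [hu]
      exact Chi_aeval hx p
    · rw [hu]
      exact hp
    · intro y hy
      rw [hu]
      exact Chi_comm hy p

end PadDet.Eq
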