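import Pool.Agent.H.MP_d7db32_ag.Eq.F.Sys

/-!
# MP_d7db32_ag, Eq/F/Cmm: commutators of lifts

`c(a, b) = χ (a b a⁻¹ b⁻¹)` for lifts `a, b` of commuting `g, g'`.
`cm_eq`: `a₂ = a r`, `b₂ = b s` with `r, s ∈ S 1` (units); change one at a time (`indep` for `z = a`; for `b` write
`a (b s) a⁻¹ (b s)⁻¹ = (a b a⁻¹ b⁻¹) (b (a s a⁻¹) s⁻¹ b⁻¹)`).
`cm_cube`: with `r = a b a⁻¹ b⁻¹`: `a b a⁻¹ = r b`, `a ^ 2 b a ^ (-2) = (a r a⁻¹) r b`,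
`a ^ 3 b a ^ (-3) = (a ^ 2 r a ^ (-2)) (a r a⁻¹) r b`; and `a ^ 3 ∈ S 1`, so
`χ (a ^ 3 b a ^ (-3) b⁻¹) = χ (a ^ 3) χ (b a ^ (-3) b⁻¹) = 1`.
`comm`: `z a z⁻¹ ∈ S g'`, `z b z⁻¹ ∈ S g`; `c(a, b) = c(z a z⁻¹, z b z⁻¹)` (`conj`), `= c(b, a)` (`cm_eq`), `= c(a, b)⁻¹`
(`chi_inv`, the commutators are inverse to each other). So `c ^ 2 = 1` and `c ^ 3 = 1`.
-/

set_option autoImplicit false

namespace PadDet.Eq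

variable {E : Type} [Ring E] [Algebra ℂ E] {Γ : Type} [Group Γ] {S : Γ → Submodule ℂ E}
  {χ : E →ₗ[ℂ] ℂ}

private theorem Cmm_chi (h : Sys S χ) {u v : Eˣ} (hu : (u : E) ∈ S 1) (hv : (v : E) ∈ S 1) :
    χ ((u * v : Eˣ) : E) = χ (u : E) * χ (v : E) := by
  rw [Units.val_mul, h.chim hu hv]

private theorem Cmm_mem (h : Sys S χ) {u v : Eˣ} (hu : (u : E) ∈ S 1) (hv : (v : E) ∈ S 1) :
    ((u * v : Eˣ) : E) ∈ S 1 := by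
  rw [Units.val_mul]
  exact h.mul1 hu hv

private theorem Cmm_cj (h : Sys S χ) {g : Γ} {u r : Eˣ} (hu : (u : E) ∈ S g) (hr : (r : E) ∈ S 1) :
    ((u * r * u⁻¹ : Eˣ) : E) ∈ S 1 ∧ χ ((u * r * u⁻¹ : Eˣ) : E) = χ (r : E) := by
  refine ⟨?_, ?_⟩
  · rw [Units.val_mul, Units.val_mul]
    exact h.cj hu hr
  · rw [Units.val_mul, Units.val_mul]
    exact h.conj hu hr

private theorem Cmm_c1 (h : Sys S χ) {g g' : Γ} (hg : g * g' = g' * g) {a b : Eˣ}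
    (ha : (a : E) ∈ S g) (hb : (b : E) ∈ S g') : ((a * b * a⁻¹ * b⁻¹ : Eˣ) : E) ∈ S 1 :=
  h.cmm hg hb hb ha

theorem Sys.cm_eq (h : Sys S χ) {g g' : Γ} (hg : g * g' = g' * g) {a a₂ b b₂ : Eˣ}
    (ha : (a : E) ∈ S g) (ha₂ : (a₂ : E) ∈ S g) (hb : (b : E) ∈ S g') (hb₂ : (b₂ : E) ∈ S g') :
    χ ((a₂ * b₂ * a₂⁻¹ * b₂⁻¹ : Eˣ) : E) = χ ((a * b * a⁻¹ * b⁻¹ : Eˣ) : E) := by
  have e1 := h.indep hg hb hb ha ha₂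
  have hρ : ((b₂ * b⁻¹ : Eˣ) : E) ∈ S 1 := h.div hb₂ hb
  have hc := Cmm_c1 h hg ha₂ hb
  obtain ⟨m1, k1⟩ := Cmm_cj h ha₂ hρ
  have e2 : (a₂ * b₂ * a₂⁻¹ * b₂⁻¹ : Eˣ) =
      (a₂ * (b₂ * b⁻¹) * a₂⁻¹) * (a₂ * b * a₂⁻¹ * b⁻¹) * (b₂ * b⁻¹)⁻¹ := by group
  rw [e2, Cmm_chi h (Cmm_mem h m1 hc) (h.inv1 hρ), Cmm_chi h m1 hc, k1, e1]
  have e3 := h.chi_inv hρ
  linear_combination χ ((a * b * a⁻¹ * b⁻¹ : Eˣ) : E) * e3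

theorem Sys.cm_cube (h : Sys S χ) {g g' : Γ} (hg : g * g' = g' * g) (g3 : g ^ 3 = 1) {a b : Eˣ}
    (ha : (a : E) ∈ S g) (hb : (b : E) ∈ S g') :
    χ ((a * b * a⁻¹ * b⁻¹ : Eˣ) : E) ^ 3 = 1 := by
  have hr := Cmm_c1 h hg ha hb
  obtain ⟨m1, k1⟩ := Cmm_cj h ha hr
  obtain ⟨m2, k2⟩ := Cmm_cj h ha m1
  have ha3 : ((a * a * a : Eˣ) : E) ∈ S 1 := by
    have := h.mul (h.mul ha ha) ha
    rw [← g3, pow_succ, sq, Units.val_mul, Units.val_mul]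
    exact this
  obtain ⟨m3, k3⟩ := Cmm_cj h hb (h.inv1 ha3)
  have e1 : (a * (a * (a * b * a⁻¹ * b⁻¹) * a⁻¹) * a⁻¹) * (a * (a * b * a⁻¹ * b⁻¹) * a⁻¹) *
      (a * b * a⁻¹ * b⁻¹) = (a * a * a) * (b * (a * a * a)⁻¹ * b⁻¹) := by group
  have e2 := congrArg (fun u : Eˣ => χ (u : E)) e1
  rw [Cmm_chi h (Cmm_mem h m2 m1) hr, Cmm_chi h m2 m1, k2, k1, Cmm_chi h ha3 m3, k3,
    h.chi_inv ha3] at e2
  rw [← e2]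
  ring

theorem Sys.comm (h : Sys S χ) {g g' k : Γ} (hg : g * g' = g' * g) (g3 : g ^ 3 = 1)
    (hk : k * g = g' * k) (hk' : k * g' = g * k) {a b z : Eˣ} (ha : (a : E) ∈ S g)
    (hb : (b : E) ∈ S g') (hz : (z : E) ∈ S k) :
    χ ((a * b * a⁻¹ * b⁻¹ : Eˣ) : E) = 1 := by
  have hr := Cmm_c1 h hg ha hb
  obtain ⟨-, k1⟩ := Cmm_cj h hz hr
  have hg' : k * g * k⁻¹ = g' := by rw [hk, mul_inv_cancel_right]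
  have hg'' : k * g' * k⁻¹ = g := by rw [hk', mul_inv_cancel_right]
  have m1 : ((z * a * z⁻¹ : Eˣ) : E) ∈ S g' := by
    have := h.mul (h.mul hz ha) (h.inv hz)
    rw [hg'] at this
    rw [Units.val_mul, Units.val_mul]
    exact this
  have m2 : ((z * b * z⁻¹ : Eˣ) : E) ∈ S g := by
    have := h.mul (h.mul hz hb) (h.inv hz)
    rw [hg''] at this
    rw [Units.val_mul, Units.val_mul]
    exact this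
  have e1 : z * (a * b * a⁻¹ * b⁻¹) * z⁻¹ = (z * a * z⁻¹) * (z * b * z⁻¹) * (z * a * z⁻¹)⁻¹ *
      (z * b * z⁻¹)⁻¹ := by group
  rw [e1, h.cm_eq hg.symm hb m1 ha m2] at k1
  have e2 : b * a * b⁻¹ * a⁻¹ = (a * b * a⁻¹ * b⁻¹)⁻¹ := by group
  rw [e2] at k1
  have e3 := h.chi_inv hr
  rw [k1] at e3
  have e4 := h.cm_cube hg g3 ha hb
  have e5 : χ ((a * b * a⁻¹ * b⁻¹ : Eˣ) : E) ^ 3 = χ ((a * b * a⁻¹ * b⁻¹ : Eˣ) : E) := by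
    linear_combination χ ((a * b * a⁻¹ * b⁻¹ : Eˣ) : E) * e3
  rw [← e5, e4]

end PadDet.Eq
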