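import Mathlib

/-!
# MP_d7db32_ag, Eq/F/Coc: cocycles of the symmetric group with values in the functions to `μ₃`

`μ l = θ (swap 0 l) 0`. `η σ l = θ σ l * μ l / μ (σ l)` is again such a cocycle; claim: it is `1`.
`η 1 l = 1`. For a transposition `s` and `s l = l`: `η s l ^ 2 = η (s * s) l = 1` and `η s l ^ 3 = 1`, so `η s l = 1`.
`η (swap 0 l) 0 = 1` because `μ 0 = θ 1 0 = 1` (definition), then `η (swap 0 l) l = 1` from `η (s * s) 0 = 1`. So
`η (swap 0 l) = 1`. `swap x y = swap 0 x * swap 0 y * swap 0 x` for different `x, y ≠ 0`, so `η (swap x y) = 1` for all transpositions, and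
`Equiv.Perm.swap_induction_on`.
-/

set_option autoImplicit false

namespace PadDet.Eq

theorem coc {N : ℕ} (θ : Equiv.Perm (Fin (N + 1)) → Fin (N + 1) → ℂ)
    (h3 : ∀ σ l, θ σ l ^ 3 = 1) (hm : ∀ σ τ l, θ (σ * τ) l = θ σ (τ l) * θ τ l) :
    ∃ μ : Fin (N + 1) → ℂ, (∀ l, μ l ^ 3 = 1) ∧ ∀ σ l, θ σ l * μ l = μ (σ l) := by
  have hne : ∀ σ l, θ σ l ≠ 0 := by
    intro σ l h
    have h1 := h3 σ l
    rw [h, zero_pow three_ne_zero] at h1
    exact zero_ne_one h1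
  have h1 : ∀ l, θ 1 l = 1 := by
    intro l
    have h2 := hm 1 1 l
    rw [one_mul, Equiv.Perm.one_apply] at h2
    exact (mul_eq_left₀ (hne 1 l)).1 h2.symm
  have hmul : ∀ σ τ, (∀ l, θ σ l * θ (Equiv.swap 0 l) 0 = θ (Equiv.swap 0 (σ l)) 0) →
      (∀ l, θ τ l * θ (Equiv.swap 0 l) 0 = θ (Equiv.swap 0 (τ l)) 0) →
      ∀ l, θ (σ * τ) l * θ (Equiv.swap 0 l) 0 = θ (Equiv.swap 0 ((σ * τ) l)) 0 := by
    intro σ τ hσ hτ l
    rw [hm, mul_assoc, hτ, hσ, Equiv.Perm.mul_apply]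
  have hs0 : ∀ x l, θ (Equiv.swap 0 x) l * θ (Equiv.swap 0 l) 0 =
      θ (Equiv.swap 0 (Equiv.swap 0 x l)) 0 := by
    intro x l
    by_cases hl0 : l = 0
    · rw [hl0, Equiv.swap_apply_left, Equiv.swap_self]
      have h2 : (Equiv.refl (Fin (N + 1)) : Equiv.Perm (Fin (N + 1))) = 1 := rfl
      rw [h2, h1, mul_one]
    by_cases hlx : l = x
    · rw [hlx, Equiv.swap_apply_right, Equiv.swap_self]
      have h2 : (Equiv.refl (Fin (N + 1)) : Equiv.Perm (Fin (N + 1))) = 1 := rfl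
      have h4 := hm (Equiv.swap 0 x) (Equiv.swap 0 x) 0
      rw [Equiv.swap_mul_self, h1, Equiv.swap_apply_left] at h4
      rw [h2, h1, ← h4]
    · rw [Equiv.swap_apply_of_ne_of_ne hl0 hlx]
      have h4 := hm (Equiv.swap 0 x) (Equiv.swap 0 x) l
      rw [Equiv.swap_mul_self, h1, Equiv.swap_apply_of_ne_of_ne hl0 hlx] at h4
      have h5 := h3 (Equiv.swap 0 x) l
      rw [pow_succ, pow_two, ← h4, one_mul] at h5
      rw [h5, one_mul]
  have hs : ∀ x y, x ≠ y → ∀ l, θ (Equiv.swap x y) l * θ (Equiv.swap 0 l) 0 =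
      θ (Equiv.swap 0 (Equiv.swap x y l)) 0 := by
    intro x y hxy
    by_cases hx : x = 0
    · rw [hx]
      exact hs0 y
    by_cases hy : y = 0
    · rw [hy, Equiv.swap_comm]
      exact hs0 x
    · have h2 : Equiv.swap 0 x * Equiv.swap 0 y * Equiv.swap 0 x = Equiv.swap x y := by
        rw [Equiv.swap_comm 0 y]
        exact Equiv.swap_mul_swap_mul_swap hy hxy.symm
      rw [← h2]
      exact hmul _ _ (hmul _ _ (hs0 x) (hs0 y)) (hs0 x)
  refine ⟨fun l => θ (Equiv.swap 0 l) 0, fun l => h3 _ _, fun σ => ?_⟩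
  refine Equiv.Perm.swap_induction_on (motive := fun σ => ∀ l, θ σ l * θ (Equiv.swap 0 l) 0 =
    θ (Equiv.swap 0 (σ l)) 0) σ ?_ ?_
  · intro l
    rw [h1, one_mul, Equiv.Perm.one_apply]
  · intro f x y hxy hf
    exact hmul _ _ (hs x y hxy) hf

end PadDet.Eq
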