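import Mathlib

/-!
# MP_d7db32_ag, Eq/F/CocA: cocycles of the alternating group with values in the functions to `μ₃`

For every `l` there is an even permutation `ε l` with `ε l 0 = l` (`ε 0 = 1`, else a 3-cycle `0 ↦ l ↦ x ↦ 0`). `μ l = θ (ε l) 0`.
(1) If `ρ` is even and `ρ 0 = 0` then `θ ρ 0 = 1`. The map `ρ ↦ θ ρ 0` is multiplicative on the group of the even permutations which fix `0`. For a 3-cycle
`x = (a b c)` which fixes `0` there are `d, e` different from `0, a, b, c` (`N ≥ 6`) and `g = (a b) (d e)` is even, fixes `0`, `g x g⁻¹ = x⁻¹`; so `θ x 0 = (θ x 0)⁻¹`,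
with `θ ^ 3 = 1` this gives `θ x 0 = 1`. The even permutations which fix `0` are products of 3-cycles which fix `0`: `ρ` is the extension of an even permutation of the type `{x // x ≠ 0}`
(`Equiv.Perm.subtypePerm`, `Equiv.Perm.ofSubtype`, `Equiv.Perm.sign_ofSubtype`) and these are products of 3-cycles (`Equiv.Perm.closure_three_cycles_eq_alternating`,
`Subgroup.closure_induction`). (Or: a multiplicative map from the alternating group of a type with at least five elements to a commutative group is trivial, by the same conjugation.)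
(2) For `σ` even and `l` the permutation `ρ = (ε (σ l))⁻¹ * σ * ε l` fixes `0`, so `σ * ε l = ε (σ l) * ρ` gives `θ σ l * μ l = μ (σ l) * θ ρ 0 = μ (σ l)`.
-/

set_option autoImplicit false

namespace PadDet.Eq

/-- The extension of a permutation of `Fin N` which fixes `0`. -/
private theorem CocA_mul {N : ℕ} (σ ρ : Equiv.Perm (Fin N)) :
    Equiv.Perm.decomposeFin.symm (0, σ * ρ) =
      Equiv.Perm.decomposeFin.symm ((0 : Fin (N + 1)), σ) *
        Equiv.Perm.decomposeFin.symm ((0 : Fin (N + 1)), ρ) := by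
  refine Equiv.ext fun x => ?_
  refine Fin.cases ?_ (fun i => ?_) x
  · rw [Equiv.Perm.mul_apply, Equiv.Perm.decomposeFin_symm_apply_zero,
      Equiv.Perm.decomposeFin_symm_apply_zero, Equiv.Perm.decomposeFin_symm_apply_zero]
  · rw [Equiv.Perm.mul_apply, Equiv.Perm.decomposeFin_symm_apply_succ,
      Equiv.Perm.decomposeFin_symm_apply_succ, Equiv.swap_self, Equiv.refl_apply,
      Equiv.refl_apply, Equiv.Perm.decomposeFin_symm_apply_succ, Equiv.swap_self,
      Equiv.refl_apply, Equiv.Perm.mul_apply]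

private theorem CocA_sign {N : ℕ} (σ : Equiv.Perm (Fin N)) :
    Equiv.Perm.sign (Equiv.Perm.decomposeFin.symm ((0 : Fin (N + 1)), σ)) =
      Equiv.Perm.sign σ := by
  rw [Equiv.Perm.decomposeFin.symm_sign, if_pos rfl, one_mul]

private theorem CocA_one {N : ℕ} :
    Equiv.Perm.decomposeFin.symm ((0 : Fin (N + 1)), (1 : Equiv.Perm (Fin N))) = 1 := by
  rw [Equiv.Perm.decomposeFin_symm_of_one, Equiv.swap_self]
  rfl

private theorem CocA_fix {N : ℕ} (hN : 6 ≤ N)
    (θ : alternatingGroup (Fin (N + 1)) → Fin (N + 1) → ℂ) (h3 : ∀ σ l, θ σ l ^ 3 = 1)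
    (hm : ∀ σ ρ l, θ (σ * ρ) l = θ σ ((ρ : Equiv.Perm (Fin (N + 1))) l) * θ ρ l)
    (ρ : alternatingGroup (Fin (N + 1))) (hρ : (ρ : Equiv.Perm (Fin (N + 1))) 0 = 0) :
    θ ρ 0 = 1 := by
  have hne : ∀ σ l, θ σ l ≠ 0 := by
    intro σ l h
    have h1 := h3 σ l
    rw [h, zero_pow three_ne_zero] at h1
    exact zero_ne_one h1
  have h1 : ∀ l, θ 1 l = 1 := by
    intro l
    have h2 := hm 1 1 l
    rw [one_mul, Subgroup.coe_one, Equiv.Perm.one_apply] at h2
    exact (mul_eq_left₀ (hne 1 l)).1 h2.symm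
  let e : alternatingGroup (Fin N) → alternatingGroup (Fin (N + 1)) := fun τ =>
    ⟨Equiv.Perm.decomposeFin.symm ((0 : Fin (N + 1)), (τ : Equiv.Perm (Fin N))),
      Equiv.Perm.mem_alternatingGroup.2
        ((CocA_sign _).trans (Equiv.Perm.mem_alternatingGroup.1 τ.2))⟩
  have he1 : e 1 = 1 := Subtype.ext CocA_one
  have hem : ∀ σ τ, e (σ * τ) = e σ * e τ := fun σ τ => Subtype.ext (CocA_mul _ _)
  have he0 : ∀ τ, ((e τ : alternatingGroup (Fin (N + 1))) : Equiv.Perm (Fin (N + 1))) 0 = 0 :=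
    fun τ => Equiv.Perm.decomposeFin_symm_apply_zero _ _
  let F : alternatingGroup (Fin N) →* ℂ :=
    { toFun := fun τ => θ (e τ) 0
      map_one' := by rw [he1, h1]
      map_mul' := fun σ τ => by rw [hem, hm, he0] }
  have hker : (F.toHomUnits : alternatingGroup (Fin N) →* ℂˣ).ker = ⊤ := by
    rw [eq_top_iff, ← commutator_alternatingGroup_eq_top
      (α := Fin N) (by rw [Nat.card_fin]; omega)]
    exact Abelianization.commutator_subset_ker _
  have hF : ∀ τ, θ (e τ) 0 = 1 := by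
    intro τ
    have h2 : τ ∈ (F.toHomUnits : alternatingGroup (Fin N) →* ℂˣ).ker := by
      rw [hker]
      exact Subgroup.mem_top τ
    have h4 := congrArg Units.val (MonoidHom.mem_ker.1 h2)
    exact h4
  obtain ⟨⟨p, τ⟩, hpτ⟩ : ∃ q, Equiv.Perm.decomposeFin.symm q = (ρ : Equiv.Perm (Fin (N + 1))) :=
    ⟨_, Equiv.symm_apply_apply _ _⟩
  have hp : p = 0 := by
    rw [← hρ, ← hpτ, Equiv.Perm.decomposeFin_symm_apply_zero]
  subst hp
  have hτ : τ ∈ alternatingGroup (Fin N) := by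
    rw [Equiv.Perm.mem_alternatingGroup, ← CocA_sign, hpτ]
    exact Equiv.Perm.mem_alternatingGroup.1 ρ.2
  have h5 : e ⟨τ, hτ⟩ = ρ := Subtype.ext hpτ
  rw [← h5]
  exact hF _

theorem cocA {N : ℕ} (hN : 6 ≤ N) (θ : alternatingGroup (Fin (N + 1)) → Fin (N + 1) → ℂ)
    (h3 : ∀ σ l, θ σ l ^ 3 = 1)
    (hm : ∀ σ ρ l, θ (σ * ρ) l = θ σ ((ρ : Equiv.Perm (Fin (N + 1))) l) * θ ρ l) :
    ∃ μ : Fin (N + 1) → ℂ, (∀ l, μ l ^ 3 = 1) ∧
      ∀ (σ : alternatingGroup (Fin (N + 1))) l,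
        θ σ l * μ l = μ ((σ : Equiv.Perm (Fin (N + 1))) l) := by
  have htr : ∀ l : Fin (N + 1), ∃ ε : alternatingGroup (Fin (N + 1)),
      (ε : Equiv.Perm (Fin (N + 1))) 0 = l := by
    intro l
    have := alternatingGroup.isPretransitive_of_three_le_card (Fin (N + 1))
      (by rw [Nat.card_fin]; omega)
    exact MulAction.exists_smul_eq (alternatingGroup (Fin (N + 1))) (0 : Fin (N + 1)) l
  choose ε hε using htr
  refine ⟨fun l => θ (ε l) 0, fun l => h3 _ _, fun σ l => ?_⟩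
  have h0 : (((ε ((σ : Equiv.Perm (Fin (N + 1))) l))⁻¹ * (σ * ε l) :
      alternatingGroup (Fin (N + 1))) : Equiv.Perm (Fin (N + 1))) 0 = 0 := by
    rw [Subgroup.coe_mul, Subgroup.coe_mul, Subgroup.coe_inv, Equiv.Perm.mul_apply,
      Equiv.Perm.mul_apply, hε, Equiv.Perm.inv_eq_iff_eq, hε]
  have h2 := CocA_fix hN θ h3 hm _ h0
  have h4 := hm (ε ((σ : Equiv.Perm (Fin (N + 1))) l))
    ((ε ((σ : Equiv.Perm (Fin (N + 1))) l))⁻¹ * (σ * ε l)) 0
  rw [mul_inv_cancel_left, h0, h2, mul_one, hm, hε] at h4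
  exact h4

end PadDet.Eq
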