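import Pool.Agent.H.MP_d7db32_ag.Eq.CaseD
import Pool.Agent.H.MP_d7db32_ag.Eq.ToZ

/-!
# MP_d7db32_ag, Eq/F/Cw: weight coordinates with a lift for each permutation (no homomorphism)

`CorW` is `Cor` (S2) without the laws of a homomorphism for `P`, `P'` (only invertible). The proofs are those of S2, S4, S5, CaseD, ToZ.
-/

set_option autoImplicit false

namespace PadDet.Eq

open Matrix

/-- Determinant expression, equivariant under permutations (`P`, `P'`) and the torus `μ₃ ^ n`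
(weights `w` of the columns, `w'` of the rows). -/
structure CorW (n m : ℕ) (q c : ℂ) (L : Matrix (Fin m) (Fin m) ℂ)
    (M : Matrix (Fin n) (Fin n) ℂ →ₗ[ℂ] Matrix (Fin m) (Fin m) ℂ)
    (w w' : Fin m → Fin n → ℂ) (P P' : Equiv.Perm (Fin n) → Matrix (Fin m) (Fin m) ℂ) :
    Prop where
  q3 : q ^ 3 = 1
  q1 : q ≠ 1
  c0 : c ≠ 0
  det : ∀ X, (L + M X).det = c * Fv X
  w0 : ∀ a i, w a i ≠ 0
  w0' : ∀ b i, w' b i ≠ 0
  w3 : ∀ a i, w a i ^ 3 = 1
  w3' : ∀ b i, w' b i ^ 3 = 1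
  gL : ∀ b a, L b a ≠ 0 → w' b = w a
  gE : ∀ b a i j, M (Matrix.single i j 1) b a ≠ 0 → ∀ l,
    w' b l = (if i = l then q else 1) * (if j = l then q else 1) * w a l
  gP : ∀ σ a' a, P σ a' a ≠ 0 → ∀ l, w a' (σ l) = w a l
  gP' : ∀ σ b' b, P' σ b' b ≠ 0 → ∀ l, w' b' (σ l) = w' b l
  Pu : ∀ σ, (P σ).det ≠ 0
  Pu' : ∀ σ, (P' σ).det ≠ 0
  PL : ∀ σ, P' σ * L = L * P σ
  PM : ∀ σ i j, P' σ * M (Matrix.single i j 1) = M (Matrix.single (σ i) (σ j) 1) * P σ
  tw : ∀ l, ∏ b, w' b l = q ^ 2 * ∏ a, w a l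

variable {n m : ℕ} {q c : ℂ} {L : Matrix (Fin m) (Fin m) ℂ}
  {M : Matrix (Fin n) (Fin n) ℂ →ₗ[ℂ] Matrix (Fin m) (Fin m) ℂ}
  {w w' : Fin m → Fin n → ℂ} {P P' : Equiv.Perm (Fin n) → Matrix (Fin m) (Fin m) ℂ}

variable {n m : ℕ} {q c : ℂ} {L : Matrix (Fin m) (Fin m) ℂ}
  {M : Matrix (Fin n) (Fin n) ℂ →ₗ[ℂ] Matrix (Fin m) (Fin m) ℂ}
  {w w' : Fin m → Fin n → ℂ} {P P' : Equiv.Perm (Fin n) → Matrix (Fin m) (Fin m) ℂ}

/-- The transposed expression. -/
theorem CorW.tr (C : CorW n m q c L M w w' P P') :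
    CorW n m q c Lᵀ ((Matrix.transposeLinearEquiv (Fin m) (Fin m) ℂ ℂ).toLinearMap ∘ₗ M)
      (fun b l => (w' b l)⁻¹) (fun a l => (w a l)⁻¹)
      (fun σ => (P' σ⁻¹)ᵀ) (fun σ => (P σ⁻¹)ᵀ) where
  q3 := C.q3
  q1 := C.q1
  c0 := C.c0
  det X := by
    rw [← C.det X, ← Matrix.det_transpose (L + M X)]
    rfl
  w0 b l := inv_ne_zero (C.w0' b l)
  w0' a l := inv_ne_zero (C.w0 a l)
  w3 b l := by rw [inv_pow, C.w3', inv_one]
  w3' a l := by rw [inv_pow, C.w3, inv_one]
  gL b a h := by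
    have := C.gL a b h
    simp only [this]
  gE b a i j h l := by
    have h1 := C.gE a b i j h l
    have hq : q ≠ 0 := by
      intro h0
      have := C.q3
      rw [h0] at this
      norm_num at this
    have hw := C.w0 b l
    have hw' := C.w0' a l
    have hi : (if i = l then q else 1 : ℂ) ≠ 0 := by split_ifs <;> simp [hq]
    have hj : (if j = l then q else 1 : ℂ) ≠ 0 := by split_ifs <;> simp [hq]
    rw [h1]
    field_simp
  gP σ a' a h l := by
    have h1 := C.gP' σ⁻¹ a a' h (σ l)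
    rw [Equiv.Perm.inv_def, Equiv.symm_apply_apply] at h1
    rw [h1]
  gP' σ b' b h l := by
    have h1 := C.gP σ⁻¹ b b' h (σ l)
    rw [Equiv.Perm.inv_def, Equiv.symm_apply_apply] at h1
    rw [h1]
  Pu σ := by
    rw [Matrix.det_transpose]
    exact C.Pu' σ⁻¹
  Pu' σ := by
    rw [Matrix.det_transpose]
    exact C.Pu σ⁻¹
  PL σ := by
    rw [← Matrix.transpose_mul, ← Matrix.transpose_mul, C.PL]
  PM σ i j := by
    have h := C.PM σ⁻¹ (σ i) (σ j)
    rw [Equiv.Perm.inv_def, Equiv.symm_apply_apply, Equiv.symm_apply_apply] at h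
    show (P σ⁻¹)ᵀ * (M (Matrix.single i j 1))ᵀ = (M (Matrix.single (σ i) (σ j) 1))ᵀ * (P' σ⁻¹)ᵀ
    rw [← Matrix.transpose_mul, ← Matrix.transpose_mul]
    exact congrArg Matrix.transpose h.symm
  tw l := by
    have h := C.tw l
    have hq : q ≠ 0 := by
      intro h0
      have := C.q3
      rw [h0] at this
      norm_num at this
    have hp : ∏ a, w a l ≠ 0 := Finset.prod_ne_zero_iff.2 (fun a _ => C.w0 a l)
    simp only [Finset.prod_inv_distrib]
    rw [h]
    field_simp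

theorem CorW.ker_part (C : CorW n m q c L M w w' P P') (ω : Fin n → ℂ) {x : Fin m → ℂ}
    (hx : L *ᵥ x = 0) : L *ᵥ wpart w ω x = 0 := by
  classical
  funext b
  have h0 := congrFun hx b
  simp only [Matrix.mulVec, dotProduct, Pi.zero_apply] at h0 ⊢
  by_cases hb : w' b = ω
  · rw [← h0]
    refine Finset.sum_congr rfl (fun a _ => ?_)
    rw [wpart_apply]
    by_cases hL : L b a = 0
    · simp [hL]
    · rw [if_pos ((C.gL b a hL).symm.trans hb)]
  · refine Finset.sum_eq_zero (fun a _ => ?_)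
    rw [wpart_apply]
    by_cases hL : L b a = 0
    · simp [hL]
    · rw [if_neg (fun h => hb ((C.gL b a hL).trans h)), mul_zero]

theorem CorW.pow (C : CorW n m q c L M w w' P P') (hn : 0 < n) (X : Matrix (Fin n) (Fin n) ℂ)
    (t : ℂ) : (L + t • M X).det = t ^ n * (c * Fv X) := by
  rw [← map_smul, C.det, Fv_smul hn]
  ring

theorem CorW.st (C : CorW n m q c L M w w' P P') (σ : Equiv.Perm (Fin n)) (a : Fin m) :
    ∃ a', ∀ i, w a' (σ i) = w a i := by
  by_contra hcon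
  push Not at hcon
  have h0 : ∀ a', P σ a' a = 0 := by
    intro a'
    by_contra h
    obtain ⟨i, hi⟩ := hcon a'
    exact hi (C.gP σ a' a h i)
  exact C.Pu σ (Matrix.det_eq_zero_of_column_eq_zero a h0)

theorem CorW.act_ker (C : CorW n m q c L M w w' P P') (σ : Equiv.Perm (Fin n)) {x : Fin m → ℂ}
    (hx : L *ᵥ x = 0) : L *ᵥ (P σ *ᵥ x) = 0 := by
  rw [Matrix.mulVec_mulVec, ← C.PL, ← Matrix.mulVec_mulVec, hx, Matrix.mulVec_zero]

theorem CorW.act_ne (C : CorW n m q c L M w w' P P') (σ : Equiv.Perm (Fin n)) {x : Fin m → ℂ}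
    (hx : x ≠ 0) : P σ *ᵥ x ≠ 0 := by
  intro h
  exact C.Pu σ (Matrix.exists_mulVec_eq_zero_iff.1 ⟨x, hx, h⟩)

theorem CorW.act_wt (C : CorW n m q c L M w w' P P') (σ : Equiv.Perm (Fin n)) {x : Fin m → ℂ}
    {ω : Fin n → ℂ} (hx : IsW w ω x) : IsW w (fun i => ω (σ⁻¹ i)) (P σ *ᵥ x) := by
  intro a' ha'
  have ha'' : ∑ a, P σ a' a * x a ≠ 0 := ha'
  obtain ⟨a, -, ha⟩ := Finset.exists_ne_zero_of_sum_ne_zero ha''
  have h1 : P σ a' a ≠ 0 := left_ne_zero_of_mul ha
  have h2 : x a ≠ 0 := right_ne_zero_of_mul ha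
  funext i
  have h3 := C.gP σ a' a h1 (σ⁻¹ i)
  rw [hx a h2] at h3
  rw [← h3]
  congr 1
  simp

/-- A nonconstant weight in the kernel. -/
theorem CorW.line {k : ℕ} {M : Matrix (Fin (2 * k + 1)) (Fin (2 * k + 1)) ℂ →ₗ[ℂ]
    Matrix (Fin m) (Fin m) ℂ} {w w' : Fin m → Fin (2 * k + 1) → ℂ}
    {P P' : Equiv.Perm (Fin (2 * k + 1)) → Matrix (Fin m) (Fin m) ℂ}
    (C : CorW (2 * k + 1) m q c L M w w' P P') (hk : 1 ≤ k)
    {X : Matrix (Fin (2 * k + 1)) (Fin (2 * k + 1)) ℂ} (hX : Fv X ≠ 0) {x : Fin m → ℂ}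
    (hx : L *ᵥ x = 0) (hx0 : x ≠ 0) {ω : Fin (2 * k + 1) → ℂ} (hω : IsW w ω x)
    {i j : Fin (2 * k + 1)} (hij : ω i ≠ ω j) :
    ∃ (c₁ c₂ : ℂ) (v : Fin (2 * k + 1) → Fin m → ℂ), c₂ ≠ c₁ ∧ m = L.rank + (2 * k + 1) ∧
      (∀ j, L *ᵥ v j = 0) ∧ (∀ j, v j ≠ 0) ∧ ∀ j, IsW w (wt1 c₁ c₂ j) (v j) := by
  classical
  have hle : m ≤ L.rank + (2 * k + 1) :=
    (s1 L (M X) (c * Fv X) (C.pow (by omega) X)).1 (mul_ne_zero C.c0 hX)
  have hH : ∀ (ι : Type) [Fintype ι] (σ : ι → Equiv.Perm (Fin (2 * k + 1))),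
      Function.Injective (fun i => ω ∘ σ i) → Fintype.card ι ≤ 2 * k + 1 := by
    intro ι _ σ hσ
    have hind := indep (fun i => P (σ i)⁻¹ *ᵥ x) (fun i => fun l => ω (((σ i)⁻¹)⁻¹ l))
      (by
        intro i i' h
        apply hσ
        funext l
        have := congrFun h l
        simpa using this)
      (fun i => C.act_ne _ hx0) (fun i => C.act_wt _ hω)
    have := card_add_rank _ hind (fun i => C.act_ker _ hx)
    omega
  obtain ⟨z, hz⟩ := fibre_two (by omega) ω hH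
  have hnz : ∃ i, ω i ≠ z := by
    by_contra hcon
    push Not at hcon
    exact hij ((hcon i).trans (hcon j).symm)
  have hcls := cls ω z (by omega) hnz hH
  obtain ⟨i₀, hi₀, hrest⟩ := hcls
  have hv : ∀ j, IsW w (wt1 z (ω i₀) j) (P (Equiv.swap i₀ j) *ᵥ x) := by
    intro j
    have h1 := C.act_wt (Equiv.swap i₀ j) hω
    have h2 : (fun i => ω ((Equiv.swap i₀ j)⁻¹ i)) = wt1 z (ω i₀) j := by
      funext i
      unfold wt1
      rw [Equiv.swap_inv]
      by_cases hi : i = j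
      · subst hi
        rw [Equiv.swap_apply_right, if_pos rfl]
      · rw [if_neg hi]
        apply hrest
        intro h
        apply hi
        have h5 := congrArg (Equiv.swap i₀ j) h
        rw [Equiv.swap_apply_self, Equiv.swap_apply_left] at h5
        exact h5
    rw [h2] at h1
    exact h1
  have hind := indep (fun j => P (Equiv.swap i₀ j) *ᵥ x) (wt1 z (ω i₀)) (wt1_inj hi₀)
    (fun j => C.act_ne _ hx0) hv
  have hcard := card_add_rank _ hind (fun i => C.act_ker _ hx)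
  rw [Fintype.card_fin] at hcard
  exact ⟨z, ω i₀, fun j => P (Equiv.swap i₀ j) *ᵥ x, hi₀, by omega, fun j => C.act_ker _ hx,
    fun j => C.act_ne _ hx0, hv⟩

theorem CorW.M_entry (_C : CorW n m q c L M w w' P P') (X : Matrix (Fin n) (Fin n) ℂ) (b a : Fin m)
    (h : M X b a ≠ 0) : ∃ i j, X i j ≠ 0 ∧ M (Matrix.single i j 1) b a ≠ 0 := by
  by_contra hcon
  push Not at hcon
  apply h
  conv_lhs => rw [Matrix.matrix_eq_sum_single X]
  rw [map_sum, Matrix.sum_apply]
  refine Finset.sum_eq_zero (fun i _ => ?_)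
  rw [map_sum, Matrix.sum_apply]
  refine Finset.sum_eq_zero (fun j _ => ?_)
  have h1 : Matrix.single i j (X i j) = X i j • Matrix.single i j (1 : ℂ) := by
    rw [Matrix.smul_single, smul_eq_mul, mul_one]
  rw [h1, map_smul, Matrix.smul_apply, smul_eq_mul]
  by_cases hX : X i j = 0
  · rw [hX, zero_mul]
  · rw [hcon i j hX, mul_zero]

/-- The kernel of the constant matrix has only constant weights. -/
theorem CorW.ker_const {k : ℕ} (hk : 1 ≤ k)
    {M : Matrix (Fin (2 * k + 1)) (Fin (2 * k + 1)) ℂ →ₗ[ℂ] Matrix (Fin m) (Fin m) ℂ}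
    {w w' : Fin m → Fin (2 * k + 1) → ℂ}
    {P P' : Equiv.Perm (Fin (2 * k + 1)) → Matrix (Fin m) (Fin m) ℂ}
    (C : CorW (2 * k + 1) m q c L M w w' P P') {x : Fin m → ℂ}
    (hx : L *ᵥ x = 0) (hx0 : x ≠ 0) {ω : Fin (2 * k + 1) → ℂ} (hω : IsW w ω x)
    (i j : Fin (2 * k + 1)) : ω i = ω j := by
  classical
  by_contra hij
  have hn3 : 3 ≤ 2 * k + 1 := by omega
  obtain ⟨q0, q2, qq⟩ := q_facts C.q3 C.q1
  let k₀ : Fin (2 * k + 1) := ⟨0, by omega⟩
  let j₀ : Fin (2 * k + 1) := ⟨1, by omega⟩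
  have hjk : j₀ ≠ k₀ := by
    intro h
    have := congrArg Fin.val h
    simp [j₀, k₀] at this
  obtain ⟨A, hA, hA1, hA2, hAF⟩ := exists_skew k k₀
  set X := A + Matrix.single k₀ k₀ 1 with hXdef
  obtain ⟨c₁, c₂, v, hc, hr, hLv, hv0, hvw⟩ := C.line hk hAF hx hx0 hω hij
  have hc1 : c₁ ≠ 0 := by
    obtain ⟨a, ha⟩ : ∃ a, v k₀ a ≠ 0 := by
      by_contra hcon
      push Not at hcon
      exact hv0 _ (funext hcon)
    have h1 := congrFun (hvw _ a ha) j₀
    unfold wt1 at h1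
    rw [if_neg hjk] at h1
    rw [← h1]
    exact C.w0 _ _
  have hnd : ∀ X' : Matrix (Fin (2 * k + 1)) (Fin (2 * k + 1)) ℂ, (c * Fv X' ≠ 0 ↔
      ∀ x, L *ᵥ x = 0 → (∀ y, y ᵥ* L = 0 → y ⬝ᵥ (M X' *ᵥ x) = 0) → x = 0) :=
    fun X' => (s1 L (M X') (c * Fv X') (C.pow (by omega) X')).2 hr
  -- a weight of the left kernel which is not constant
  obtain ⟨y, hy, hyX⟩ : ∃ y, y ᵥ* L = 0 ∧ y ⬝ᵥ (M X *ᵥ v j₀) ≠ 0 := by
    by_contra hcon
    push Not at hcon
    exact hv0 j₀ ((hnd X).1 (mul_ne_zero C.c0 hAF) (v j₀) (hLv j₀) hcon)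
  obtain ⟨b, a, hyb, hba, hva⟩ := pair_entry _ _ _ hyX
  obtain ⟨k', l, hXkl, hMkl⟩ := C.M_entry X b a hba
  have hyT : Lᵀ *ᵥ y = 0 := by rw [Matrix.mulVec_transpose, hy]
  have hrel := C.gE b a k' l hMkl
  rw [hvw j₀ a hva] at hrel
  have hXe : ∀ s t, s ≠ t → (s = k₀ ∨ t = k₀) → X s t = 0 := by
    intro s t hst h
    rw [hXdef, Matrix.add_apply, Matrix.single_apply_of_ne _ _ _ _ _ (by
      rintro ⟨h1, h2⟩
      exact hst (h1.symm.trans h2)), add_zero]
    rcases h with rfl | rfl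
    · exact hA2 _
    · exact hA1 _
  have hAd : ∀ s, A s s = 0 := by
    intro s
    have h1 := congrFun (congrFun hA s) s
    rw [Matrix.transpose_apply, Matrix.neg_apply] at h1
    have h2 : (2 : ℂ) * A s s = 0 := by linear_combination h1
    exact (mul_eq_zero.1 h2).resolve_left two_ne_zero
  have hnc : ∃ i j, w' b i ≠ w' b j := by
    by_contra hcon
    push Not at hcon
    rcases wt_const C.q3 C.q1 hn3 hc1 j₀ k' l (z := w' b 0)
      (fun t => by rw [hcon 0 t]; exact hrel t) with h1 | h1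
    · apply hXkl
      rw [h1.1, h1.2, hXdef, Matrix.add_apply, Matrix.single_apply_of_ne _ _ _ _ _ (by
        rintro ⟨h2, -⟩
        exact hjk h2.symm), hAd, add_zero]
    · apply hXkl
      apply hXe k' l h1.1
      rcases h1.2 k₀ (Ne.symm hjk) with h2 | h2
      · exact Or.inl h2.symm
      · exact Or.inr h2.symm
  obtain ⟨i₁, j₁, hij₁⟩ := hnc
  obtain ⟨e₁, e₂, u, he, hr', hLu, hu0, huw⟩ := C.tr.line hk hAF
    (ker_part' Lᵀ w' w (fun b a h => (C.gL a b h).symm) (w' b) hyT) (wpart_ne hyb)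
    (ω := fun l => (w' b l)⁻¹) (fun b' hb' => by
      have := wpart_isW w' (w' b) y b' hb'
      simp only [this]) (i := i₁) (j := j₁) (fun h => hij₁ (inv_injective h))
  have huw' : ∀ i, IsW w' (wt1 e₁⁻¹ e₂⁻¹ i) (u i) := by
    intro i b hb
    have h1 := huw i b hb
    funext t
    have h2 := congrFun h1 t
    have h3 : w' b t = (wt1 e₁ e₂ i t)⁻¹ := by rw [← h2, inv_inv]
    rw [h3]
    unfold wt1
    split_ifs <;> rfl
  have hd : e₂⁻¹ ≠ e₁⁻¹ := fun h => he (inv_injective h)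
  set d₁ := e₁⁻¹ with hd₁
  set d₂ := e₂⁻¹ with hd₂
  have hrelB : ∀ i j k' l, u i ⬝ᵥ (M (Matrix.single k' l 1) *ᵥ v j) ≠ 0 → ∀ t,
      wt1 d₁ d₂ i t = (if k' = t then q else 1) * (if l = t then q else 1) * wt1 c₁ c₂ j t := by
    intro i j k' l h
    obtain ⟨b, a, hb, hba, ha⟩ := pair_entry _ _ _ h
    have h1 := C.gE b a k' l hba
    rw [hvw j a ha, huw' i b hb] at h1
    exact h1
  have hvi := indep v _ (wt1_inj hc) hv0 hvw
  have hui := indep u _ (wt1_inj he) hu0 huw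
  have hvs : ∀ x, L *ᵥ x = 0 → ∃ ξ : Fin (2 * k + 1) → ℂ, x = ∑ j, ξ j • v j :=
    fun x hx => ker_span v hvi hLv hr hx
  have hus : ∀ y, y ᵥ* L = 0 → ∃ ξ : Fin (2 * k + 1) → ℂ, y = ∑ j, ξ j • u j :=
    fun y hy => ker_span u hui hLu hr' (x := y) (by rw [Matrix.mulVec_transpose, hy])
  -- the diagonal variables do not contribute
  have hdiag : ∀ k₁, (∀ i j, u i ⬝ᵥ (M (Matrix.single k₁ k₁ 1) *ᵥ v j) = 0) → False := by
    intro k₁ hz
    obtain ⟨A', hA', -, -, hAF'⟩ := exists_skew k k₁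
    refine same_pairing hnd v u hvs hus C.c0 (A' + Matrix.single k₁ k₁ 1) A' ?_ hAF'
      (Fv_skew A' hA')
    intro i j
    rw [map_add, Matrix.add_mulVec, dotProduct_add, hz i j, add_zero]
  by_cases hdc : d₁ = c₁
  · -- equal common values
    have hF1 : Fv (1 : Matrix (Fin (2 * k + 1)) (Fin (2 * k + 1)) ℂ) = 0 :=
      Fv_symm (by omega) 1 Matrix.transpose_one
    have hone : ∀ i j, u i ⬝ᵥ (M 1 *ᵥ v j) =
        if i = j then u i ⬝ᵥ (M (Matrix.single i i 1) *ᵥ v i) else 0 := by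
      intro i j
      rw [pair_expand]
      have hterm : ∀ k' l, (1 : Matrix (Fin (2 * k + 1)) (Fin (2 * k + 1)) ℂ) k' l *
          (u i ⬝ᵥ (M (Matrix.single k' l 1) *ᵥ v j)) =
          if k' = i ∧ l = i ∧ i = j then u i ⬝ᵥ (M (Matrix.single i i 1) *ᵥ v i) else 0 := by
        intro k' l
        by_cases hkl : k' = l
        · subst hkl
          rw [Matrix.one_apply_eq, one_mul]
          by_cases h0 : u i ⬝ᵥ (M (Matrix.single k' k' 1) *ᵥ v j) = 0
          · rw [h0]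
            split_ifs with h1
            · obtain ⟨h2, -, h3⟩ := h1
              subst h2
              rw [← h3] at h0
              exact h0.symm
            · rfl
          · have h1 := hrelB i j k' k' h0
            rw [hdc] at h1
            obtain ⟨h2, h3⟩ := wt_diag C.q3 C.q1 hc (by rw [← hdc]; exact hd) hc1 i j k' h1
            subst h2
            subst h3
            rw [if_pos ⟨rfl, rfl, rfl⟩]
        · rw [Matrix.one_apply_ne hkl, zero_mul, if_neg]
          rintro ⟨h1, h2, -⟩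
          exact hkl (h1.trans h2.symm)
      simp_rw [hterm]
      by_cases h : i = j
      · subst h
        rw [if_pos rfl, Fintype.sum_eq_single i, Fintype.sum_eq_single i]
        · rw [if_pos ⟨rfl, rfl, rfl⟩]
        · intro l hl
          rw [if_neg]
          rintro ⟨-, h1, -⟩
          exact hl h1
        · intro k' hk'
          refine Finset.sum_eq_zero (fun l _ => ?_)
          rw [if_neg]
          rintro ⟨h1, -, -⟩
          exact hk' h1
      · rw [if_neg h]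
        refine Finset.sum_eq_zero (fun k' _ => Finset.sum_eq_zero (fun l _ => ?_))
        rw [if_neg]
        rintro ⟨-, -, h1⟩
        exact h h1
    -- some diagonal coefficient vanishes
    obtain ⟨k₁, hk₁⟩ : ∃ k₁, u k₁ ⬝ᵥ (M (Matrix.single k₁ k₁ 1) *ᵥ v k₁) = 0 := by
      by_contra hcon
      push Not at hcon
      have h1 : c * Fv (1 : Matrix (Fin (2 * k + 1)) (Fin (2 * k + 1)) ℂ) ≠ 0 := by
        rw [hnd]
        intro x hx hxy
        obtain ⟨ξ, hξ⟩ := hvs x hx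
        have h2 : ∀ i, ξ i = 0 := by
          intro i
          have h3 := hxy (u i) (by rw [← Matrix.mulVec_transpose]; exact hLu i)
          rw [hξ, Matrix.mulVec_sum, dotProduct_sum, Fintype.sum_eq_single i] at h3
          · rw [Matrix.mulVec_smul, dotProduct_smul, hone, if_pos rfl, smul_eq_mul] at h3
            exact (mul_eq_zero.1 h3).resolve_right (hcon i)
          · intro j hj
            rw [Matrix.mulVec_smul, dotProduct_smul, hone, if_neg (Ne.symm hj), smul_zero]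
        rw [hξ]
        simp [h2]
      exact h1 (by rw [hF1, mul_zero])
    apply hdiag k₁
    intro i j
    by_contra h0
    have h1 := hrelB i j k₁ k₁ h0
    rw [hdc] at h1
    obtain ⟨h2, h3⟩ := wt_diag C.q3 C.q1 hc (by rw [← hdc]; exact hd) hc1 i j k₁ h1
    subst h2
    subst h3
    exact h0 hk₁
  · -- different common values
    by_cases hall : ∀ k₁ i j, u i ⬝ᵥ (M (Matrix.single k₁ k₁ 1) *ᵥ v j) = 0
    · exact hdiag k₀ (hall k₀)
    · push Not at hall
      obtain ⟨k₁, i₂, j₂, h2⟩ := hall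
      have hD := wt_neD hn3 hdc i₂ j₂ k₁ (hrelB _ _ _ _ h2)
      have hO : ∀ i j k' l, k' ≠ l → u i ⬝ᵥ (M (Matrix.single k' l 1) *ᵥ v j) = 0 := by
        intro i j k' l hkl
        by_contra h0
        have h1 := wt_neO hn3 hdc i j k' l hkl (hrelB _ _ _ _ h0)
        rw [hD] at h1
        have h3 : q * q = q := mul_right_cancel₀ hc1 h1
        exact C.q1 (mul_left_cancel₀ q0 (by rw [mul_one]; exact h3))
      refine same_pairing hnd v u hvs hus C.c0 X (Matrix.single k₀ k₀ 1) ?_ hAF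
        (Fv_symm (by omega) _ (Matrix.transpose_single ..))
      intro i j
      rw [hXdef, map_add, Matrix.add_mulVec, dotProduct_add]
      have h3 : u i ⬝ᵥ (M A *ᵥ v j) = 0 := by
        rw [pair_expand]
        refine Finset.sum_eq_zero (fun k' _ => Finset.sum_eq_zero (fun l _ => ?_))
        by_cases hkl : k' = l
        · subst hkl
          rw [hAd, zero_mul]
        · rw [hO i j k' l hkl, mul_zero]
      rw [h3, zero_add]

/-- Both kernels of the constant matrix have only constant weights. -/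
theorem CorW.const {k : ℕ}
    {M : Matrix (Fin (2 * k + 1)) (Fin (2 * k + 1)) ℂ →ₗ[ℂ] Matrix (Fin m) (Fin m) ℂ}
    {w w' : Fin m → Fin (2 * k + 1) → ℂ}
    {P P' : Equiv.Perm (Fin (2 * k + 1)) → Matrix (Fin m) (Fin m) ℂ}
    (C : CorW (2 * k + 1) m q c L M w w' P P') :
    (∀ x ω, L *ᵥ x = 0 → x ≠ 0 → IsW w ω x → ∀ i j, ω i = ω j) ∧
    (∀ y ω, Lᵀ *ᵥ y = 0 → y ≠ 0 → IsW w' ω y → ∀ i j, ω i = ω j) := by
  rcases Nat.eq_zero_or_pos k with hk | hk
  · subst hk
    have h1 : ∀ (ω : Fin (2 * 0 + 1) → ℂ) (i j : Fin (2 * 0 + 1)), ω i = ω j := by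
      intro ω i j
      rw [show i = j from Fin.ext (by omega)]
    exact ⟨fun _ ω _ _ _ => h1 ω, fun _ ω _ _ _ => h1 ω⟩
  · refine ⟨fun x ω hx hx0 hω => C.ker_const hk hx hx0 hω, fun y ω hy hy0 hω i j => ?_⟩
    have h1 := C.tr.ker_const hk hy hy0 (ω := fun l => (ω l)⁻¹) (fun b hb => by
      have := hω b hb
      simp only [this]) i j
    exact inv_injective h1

theorem toZw {n m : ℕ} {q c : ℂ} {L : Matrix (Fin m) (Fin m) ℂ}
    {M : Matrix (Fin n) (Fin n) ℂ →ₗ[ℂ] Matrix (Fin m) (Fin m) ℂ}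
    {w w' : Fin m → Fin n → ℂ} {P P' : Equiv.Perm (Fin n) → Matrix (Fin m) (Fin m) ℂ}
    (C : CorW n m q c L M w w' P P') (h3 : ∀ a i, w a i ^ 3 = 1) (h3' : ∀ b i, w' b i ^ 3 = 1)
    (hK : ∀ x ω, L *ᵥ x = 0 → x ≠ 0 → IsW w ω x → ∀ i j, ω i = ω j)
    (hK' : ∀ y ω, Lᵀ *ᵥ y = 0 → y ≠ 0 → IsW w' ω y → ∀ i j, ω i = ω j) :
    ∃ z z' : Fin m → Fin n → ZMod 3, Gz n m c L M z z' := by
  have q3 := C.q3
  have q1 := C.q1
  choose z hz using fun a i => toZ_exists q3 q1 (h3 a i)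
  choose z' hz' using fun b i => toZ_exists q3 q1 (h3' b i)
  refine ⟨z, z', ?_⟩
  have hv1 : (1 : ZMod 3).val = 1 := rfl
  have hv2 : (2 : ZMod 3).val = 2 := rfl
  have hsing : ∀ i l : Fin n, q ^ ((Pi.single i 1 : Fin n → ZMod 3) l).val =
      if i = l then q else 1 := by
    intro i l
    by_cases h : i = l
    · subst h
      rw [Pi.single_eq_same, if_pos rfl, hv1, pow_one]
    · rw [Pi.single_eq_of_ne (Ne.symm h), if_neg h]
      simp
  refine ⟨C.c0, C.det, ?_, ?_, ?_, ?_, ?_⟩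
  · intro b a h
    funext i
    apply toZ_inj q3 q1
    rw [hz, hz', C.gL b a h]
  · intro b a i j h
    funext l
    apply toZ_inj q3 q1
    rw [Pi.add_apply, Pi.add_apply, toZ_add q3, toZ_add q3, hz, hz', hsing, hsing,
      C.gE b a i j h l]
    ring
  · intro σ a
    obtain ⟨a', ha'⟩ := C.st σ a
    refine ⟨a', fun i => ?_⟩
    apply toZ_inj q3 q1
    rw [hz, hz]
    exact ha' i
  · intro i
    apply toZ_inj q3 q1
    rw [toZ_add q3, toZ_sum q3, toZ_sum q3, hv2]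
    have h1 := C.tw i
    simp only [hz, hz']
    rw [h1]
    ring
  · intro ω hω
    obtain ⟨i, j, hij⟩ := hω
    have hconv : ∀ a, z a = ω ↔ w a = fun i => q ^ (ω i).val := by
      intro a
      constructor
      · intro h
        funext i
        rw [← hz a i, h]
      · intro h
        funext i
        apply toZ_inj q3 q1
        rw [hz a i, h]
    have hconv' : ∀ a, z' a = ω ↔ w' a = fun i => q ^ (ω i).val := by
      intro a
      constructor
      · intro h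
        funext i
        rw [← hz' a i, h]
      · intro h
        funext i
        apply toZ_inj q3 q1
        rw [hz' a i, h]
    have e1 : Nat.card {a // z a = ω} = Nat.card {a // w a = fun i => q ^ (ω i).val} :=
      Nat.card_congr (Equiv.subtypeEquivRight hconv)
    have e2 : Nat.card {a // z' a = ω} = Nat.card {a // w' a = fun i => q ^ (ω i).val} :=
      Nat.card_congr (Equiv.subtypeEquivRight hconv')
    have hne : (fun i => q ^ (ω i).val) i ≠ (fun i => q ^ (ω i).val) j :=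
      fun h => hij (toZ_inj q3 q1 h)
    rw [e1, e2]
    apply le_antisymm
    · apply blk_le L w w' C.gL
      intro x hx hw
      by_contra hx0
      exact hne (hK x _ hx hx0 hw i j)
    · apply blk_le Lᵀ w' w (fun b a h => (C.gL a b h).symm)
      intro x hx hw
      by_contra hx0
      exact hne (hK' x _ hx hx0 hw i j)

end PadDet.Eq
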