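import Pool.Agent.H.MP_d7db32_ag.Eq.F.Lft
import Pool.Agent.H.MP_d7db32_ag.Eq.F.Coc

/-!
# MP_d7db32_ag, Eq/F/Fnl: lifts of the torus which are permuted by lifts of the permutations

`fnl`: `a` from `lifts` (for `hsw` the lift of `π (swap i j)`). `u σ` a lift of `π σ`,
`θ σ i = χ (u σ * a i * (u σ)⁻¹ * (a (σ i))⁻¹)`; `θ ^ 3 = 1` by `avg` (`g := τ (σ i)`, `g' := τ i`). By `indep` the lift `u σ` may be any lift of `π σ`.
`th_mul`: with `r = y b y⁻¹ b'⁻¹`, `r' = z b' z⁻¹ a⁻¹`: `(z y) b (z y)⁻¹ a⁻¹ = (z r z⁻¹) r'`. So `θ (σ * ρ) i = θ σ (ρ i) * θ ρ i`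
(`indep` to replace `u (σ * ρ)` by `u σ * u ρ`). `μ` from `coc`; the new lifts are `a' i = μ i • a i` (units: `Units.mk0 (μ i)` mapped by `algebraMap`, or
the inverse is `(μ i)⁻¹ • (a i)⁻¹`).
`all_one`: finite induction over `s` with `avg` (as in `lift_one`): a lift `z` of `k` with `z b_i = θ_i a_i z` for all `i ∈ s`, where `θ_i = χ (z b_i z⁻¹ a_i⁻¹)` does not
depend on the lift (`indep`).
-/

set_option autoImplicit false

namespace PadDet.Eq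

variable {E : Type} [Ring E] [Algebra ℂ E] {Γ : Type} [Group Γ] {S : Γ → Submodule ℂ E}
  {χ : E →ₗ[ℂ] ℂ}

theorem Sys.th_mul (h : Sys S χ) {g g' g'' k k' : Γ} (hk : k * g' = g * k)
    (hk' : k' * g'' = g' * k') {a b' b z y : Eˣ} (ha : (a : E) ∈ S g) (hb' : (b' : E) ∈ S g')
    (hb : (b : E) ∈ S g'') (hz : (z : E) ∈ S k) (hy : (y : E) ∈ S k') :
    χ (((z * y) * b * (z * y)⁻¹ * a⁻¹ : Eˣ) : E) =
      χ ((z * b' * z⁻¹ * a⁻¹ : Eˣ) : E) * χ ((y * b * y⁻¹ * b'⁻¹ : Eˣ) : E) := by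
  have hr := h.cmm hk' hb' hb hy
  have hr' := h.cmm hk ha hb' hz
  have e1 : ((z * y) * b * (z * y)⁻¹ * a⁻¹ : Eˣ) =
      (z * (y * b * y⁻¹ * b'⁻¹) * z⁻¹) * (z * b' * z⁻¹ * a⁻¹) := by group
  have e2 : ((z * (y * b * y⁻¹ * b'⁻¹) * z⁻¹ : Eˣ) : E) =
      (z : E) * ((y * b * y⁻¹ * b'⁻¹ : Eˣ) : E) * ((z⁻¹ : Eˣ) : E) := by
    rw [Units.val_mul, Units.val_mul]
  rw [e1, Units.val_mul, e2, h.chim (h.cj hz hr) hr', h.conj hz hr, mul_comm]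

theorem Sys.all_one (h : Sys S χ) {ι : Type} [Finite ι] {g g' : ι → Γ} {k : Γ}
    (hk : ∀ i, k * g' i = g i * k) {a b : ι → Eˣ} (ha : ∀ i, (a i : E) ∈ S (g i))
    (hb : ∀ i, (b i : E) ∈ S (g' i)) (a3 : ∀ i, a i ^ 3 = 1) (b3 : ∀ i, b i ^ 3 = 1)
    (ac : ∀ i j, a i * a j = a j * a i) (bc : ∀ i j, b i * b j = b j * b i) {u : Eˣ}
    (hu : (u : E) ∈ S k) :
    ∃ z : Eˣ, (z : E) ∈ S k ∧ ∀ i, (z : E) * b i =
      χ ((u * b i * u⁻¹ * (a i)⁻¹ : Eˣ) : E) • ((a i : E) * z) := by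
  classical
  have : Fintype ι := Fintype.ofFinite ι
  have key : ∀ s : Finset ι, ∃ z : Eˣ, (z : E) ∈ S k ∧ ∀ i ∈ s, (z : E) * b i =
      χ ((u * b i * u⁻¹ * (a i)⁻¹ : Eˣ) : E) • ((a i : E) * z) := by
    intro s
    induction s using Finset.induction_on with
    | empty => exact ⟨u, hu, fun i hi => absurd hi (Finset.notMem_empty i)⟩
    | insert i s _ ih =>
      obtain ⟨z, hz, hzs⟩ := ih
      obtain ⟨-, z', hz', e1, e2⟩ := h.avg (hk i) (ha i) (hb i) hz (a3 i) (b3 i)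
      rw [h.indep (hk i) (ha i) (hb i) hu hz] at e1
      refine ⟨z', hz', fun j hj => ?_⟩
      rcases Finset.mem_insert.1 hj with rfl | hj
      · exact e1
      · refine e2 _ _ _ ?_ ?_ (hzs j hj)
        · rw [← Units.val_mul, ac j i, Units.val_mul]
        · rw [← Units.val_mul, bc j i, Units.val_mul]
  obtain ⟨z, hz, hzs⟩ := key Finset.univ
  exact ⟨z, hz, fun i => hzs i (Finset.mem_univ i)⟩

private theorem Fnl_smul {μ : ℂ} (hμ : μ ≠ 0) (a : Eˣ) : ∃ a' : Eˣ, (a' : E) = μ • (a : E) :=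
  ⟨Units.map (algebraMap ℂ E : ℂ →* E) (Units.mk0 μ hμ) * a, by
    rw [Units.val_mul, Algebra.smul_def]
    rfl⟩

theorem Sys.fnl (h : Sys S χ) {N : ℕ} {τ : Fin (N + 1) → Γ}
    {π : Equiv.Perm (Fin (N + 1)) →* Γ} (τ3 : ∀ i, τ i ^ 3 = 1)
    (τc : ∀ i j, τ i * τ j = τ j * τ i) (hπ : ∀ σ i, π σ * τ i = τ (σ i) * π σ)
    (hT : ∀ i, ∃ u : Eˣ, (u : E) ∈ S (τ i)) (hP : ∀ σ, ∃ u : Eˣ, (u : E) ∈ S (π σ)) :
    ∃ a : Fin (N + 1) → Eˣ, (∀ i, (a i : E) ∈ S (τ i)) ∧ (∀ i, a i ^ 3 = 1) ∧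
      (∀ i j, a i * a j = a j * a i) ∧
      ∀ σ, ∃ z : Eˣ, (z : E) ∈ S (π σ) ∧ ∀ i, z * a i = a (σ i) * z := by
  choose u hu using hP
  obtain ⟨a, ha, a3, ac⟩ := h.lifts τ3 τc (fun i j => by
    refine ⟨π (Equiv.swap i j), u (Equiv.swap i j), hu _, ?_, ?_⟩
    · have := hπ (Equiv.swap i j) i
      rwa [Equiv.swap_apply_left] at this
    · have := hπ (Equiv.swap i j) j
      rwa [Equiv.swap_apply_right] at this) hT
  obtain ⟨μ, μ3, hμ⟩ := coc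
    (fun σ i => χ ((u σ * a i * (u σ)⁻¹ * (a (σ i))⁻¹ : Eˣ) : E))
    (fun σ i => (h.avg (hπ σ i) (ha (σ i)) (ha i) (hu σ) (a3 (σ i)) (a3 i)).1)
    (fun σ ρ i => by
      have h1 : ((u σ * u ρ : Eˣ) : E) ∈ S (π (σ * ρ)) := by
        rw [Units.val_mul, map_mul]
        exact h.mul (hu σ) (hu ρ)
      have h2 := h.indep (hπ (σ * ρ) i) (ha ((σ * ρ) i)) (ha i) h1 (hu (σ * ρ))
      have h3 := h.th_mul (hπ σ (ρ i)) (hπ ρ i) (ha (σ (ρ i))) (ha (ρ i)) (ha i) (hu σ) (hu ρ)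
      exact h2.trans h3)
  have μ0 : ∀ i, μ i ≠ 0 := fun i h0 => by
    have := μ3 i
    rw [h0, zero_pow three_ne_zero] at this
    exact zero_ne_one this
  choose a' ha' using fun i => Fnl_smul (μ0 i) (a i)
  refine ⟨a', fun i => ?_, fun i => ?_, fun i j => ?_, fun σ => ?_⟩
  · rw [ha']
    exact (S (τ i)).smul_mem _ (ha i)
  · apply Units.ext
    rw [Units.val_pow_eq_pow_val, ha', _root_.smul_pow, μ3, one_smul, ← Units.val_pow_eq_pow_val,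
      a3]
  · apply Units.ext
    rw [Units.val_mul, Units.val_mul, ha', ha', smul_mul_smul_comm, smul_mul_smul_comm,
      ← Units.val_mul, ← Units.val_mul, ac i j, mul_comm]
  · obtain ⟨z, hz, hza⟩ := h.all_one (g := fun i => τ (σ i)) (g' := τ) (hπ σ)
      (a := fun i => a (σ i)) (b := a) (fun i => ha (σ i)) ha (fun i => a3 (σ i)) a3
      (fun i j => ac _ _) ac (hu σ)
    refine ⟨z, hz, fun i => ?_⟩
    apply Units.ext
    rw [Units.val_mul, Units.val_mul, ha', ha', mul_smul_comm, hza i, smul_smul, smul_mul_assoc,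
      ← hμ σ i, mul_comm]

end PadDet.Eq
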