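import Pool.Agent.H.MP_d7db32_ag.Eq.F.Fnl

/-!
# MP_d7db32_ag, Eq/F/FnlA: `Sys.fnl` for a group of permutations `A`
-/

set_option autoImplicit false

namespace PadDet.Eq

variable {E : Type} [Ring E] [Algebra ℂ E] {Γ : Type} [Group Γ] {S : Γ → Submodule ℂ E}
  {χ : E →ₗ[ℂ] ℂ}

private theorem FnlA_smul {μ : ℂ} (hμ : μ ≠ 0) (a : Eˣ) : ∃ a' : Eˣ, (a' : E) = μ • (a : E) :=
  ⟨Units.map (algebraMap ℂ E : ℂ →* E) (Units.mk0 μ hμ) * a, by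
    rw [Units.val_mul, Algebra.smul_def]
    rfl⟩

theorem Sys.fnlA (h : Sys S χ) {ι : Type} [Finite ι] {τ : ι → Γ}
    {A : Subgroup (Equiv.Perm ι)} {π : A →* Γ} (τ3 : ∀ i, τ i ^ 3 = 1)
    (τc : ∀ i j, τ i * τ j = τ j * τ i)
    (hπ : ∀ (σ : A) (i : ι), π σ * τ i = τ ((σ : Equiv.Perm ι) i) * π σ)
    (hsw : ∀ i j, ∃ σ : A, (σ : Equiv.Perm ι) i = j ∧ (σ : Equiv.Perm ι) j = i)
    (hcoc : ∀ θ : A → ι → ℂ, (∀ σ l, θ σ l ^ 3 = 1) →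
      (∀ σ ρ l, θ (σ * ρ) l = θ σ ((ρ : Equiv.Perm ι) l) * θ ρ l) →
      ∃ μ : ι → ℂ, (∀ l, μ l ^ 3 = 1) ∧ ∀ (σ : A) l, θ σ l * μ l = μ ((σ : Equiv.Perm ι) l))
    (hT : ∀ i, ∃ u : Eˣ, (u : E) ∈ S (τ i)) (hP : ∀ σ, ∃ u : Eˣ, (u : E) ∈ S (π σ)) :
    ∃ a : ι → Eˣ, (∀ i, (a i : E) ∈ S (τ i)) ∧ (∀ i, a i ^ 3 = 1) ∧
      (∀ i j, a i * a j = a j * a i) ∧
      ∀ σ : A, ∃ z : Eˣ, (z : E) ∈ S (π σ) ∧ ∀ i, z * a i = a ((σ : Equiv.Perm ι) i) * z := by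
  choose u hu using hP
  obtain ⟨a, ha, a3, ac⟩ := h.lifts τ3 τc (fun i j => by
    obtain ⟨σ, h1, h2⟩ := hsw i j
    refine ⟨π σ, u σ, hu _, ?_, ?_⟩
    · have := hπ σ i
      rwa [h1] at this
    · have := hπ σ j
      rwa [h2] at this) hT
  obtain ⟨μ, μ3, hμ⟩ := hcoc
    (fun σ i => χ ((u σ * a i * (u σ)⁻¹ * (a ((σ : Equiv.Perm ι) i))⁻¹ : Eˣ) : E))
    (fun σ i => (h.avg (hπ σ i) (ha ((σ : Equiv.Perm ι) i)) (ha i) (hu σ)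
      (a3 ((σ : Equiv.Perm ι) i)) (a3 i)).1)
    (fun σ ρ i => by
      have h1 : ((u σ * u ρ : Eˣ) : E) ∈ S (π (σ * ρ)) := by
        rw [Units.val_mul, map_mul]
        exact h.mul (hu σ) (hu ρ)
      have h2 := h.indep (hπ (σ * ρ) i) (ha (((σ * ρ : A) : Equiv.Perm ι) i)) (ha i) h1
        (hu (σ * ρ))
      have h3 := h.th_mul (hπ σ ((ρ : Equiv.Perm ι) i)) (hπ ρ i)
        (ha ((σ : Equiv.Perm ι) ((ρ : Equiv.Perm ι) i))) (ha ((ρ : Equiv.Perm ι) i)) (ha i)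
        (hu σ) (hu ρ)
      exact h2.trans h3)
  have μ0 : ∀ i, μ i ≠ 0 := fun i h0 => by
    have := μ3 i
    rw [h0, zero_pow three_ne_zero] at this
    exact zero_ne_one this
  choose a' ha' using fun i => FnlA_smul (μ0 i) (a i)
  refine ⟨a', fun i => ?_, fun i => ?_, fun i j => ?_, fun σ => ?_⟩
  · rw [ha']
    exact (S (τ i)).smul_mem _ (ha i)
  · apply Units.ext
    rw [Units.val_pow_eq_pow_val, ha', _root_.smul_pow, μ3, one_smul, ← Units.val_pow_eq_pow_val,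
      a3]
  · apply Units.ext
    rw [Units.val_mul, Units.val_mul, ha', ha', smul_mul_smul_comm, smul_mul_smul_comm,
      ← Units.val_mul, ← Units.val_mul, ac i j, mul_comm]
  · obtain ⟨z, hz, hza⟩ := h.all_one (g := fun i => τ ((σ : Equiv.Perm ι) i)) (g' := τ) (hπ σ)
      (a := fun i => a ((σ : Equiv.Perm ι) i)) (b := a) (fun i => ha _) ha
      (fun i => a3 _) a3 (fun i j => ac _ _) ac (hu σ)
    refine ⟨z, hz, fun i => ?_⟩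
    apply Units.ext
    rw [Units.val_mul, Units.val_mul, ha', ha', mul_smul_comm, hza i, smul_smul, smul_mul_assoc,
      ← hμ σ i, mul_comm]

end PadDet.Eq
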