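import Pool.Agent.H.MP_d7db32_ag.Eq.F.Avg
import Pool.Agent.H.MP_d7db32_ag.Eq.F.Cmm

/-!
# MP_d7db32_ag, Eq/F/Lft: commuting lifts of order three

`lift_one`: finite induction over the set `s` (`Finset.induction_on`): a lift `z` of `g` which commutes with the `a i`, `i ∈ s`: if it commutes with those in `s`,
then `avg` with `g, g' := τ i`, `k := g`, `a, b := a i` and `hk` = the two commute, `χ (z a z⁻¹ a⁻¹) = 1` (`comm`, here `hχ`), gives one which commutes with
`a i` too, and still with the others (last clause of `avg` with `θ = 1`, `a₁ = b₁ = a i'`).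
`lift_cube`: `z ^ 3 ∈ S 1`, let `ζ ^ 3 = χ (z ^ 3)` (`chi_ne`, so `ζ ≠ 0`), `z₁ = ζ⁻¹ z`, `x = z₁ ^ 3`, `v` from `cube`, and
`z' = z₁ v⁻¹`: `v` commutes with everything that commutes with `x`, for example with `z₁`.
`lifts`: finite induction over the set of the indices for which the lifts are chosen (a family `a : ι → Eˣ` with the properties for the indices in `s`;
`Function.update`); in the step a lift `z` of `τ j` which commutes with the `a i`, `i ∈ s` (`lift_one`), then `lift_cube`.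
-/

set_option autoImplicit false

namespace PadDet.Eq

variable {E : Type} [Ring E] [Algebra ℂ E] {Γ : Type} [Group Γ] {S : Γ → Submodule ℂ E}
  {χ : E →ₗ[ℂ] ℂ}

theorem Sys.lift_one (h : Sys S χ) {ι : Type} {τ : ι → Γ} {g : Γ}
    (hg : ∀ i, g * τ i = τ i * g) (s : Finset ι) {a : ι → Eˣ}
    (ha : ∀ i ∈ s, (a i : E) ∈ S (τ i)) (a3 : ∀ i ∈ s, a i ^ 3 = 1)
    (ac : ∀ i ∈ s, ∀ j ∈ s, a i * a j = a j * a i)
    (hχ : ∀ i ∈ s, ∀ z : Eˣ, (z : E) ∈ S g → χ ((z * a i * z⁻¹ * (a i)⁻¹ : Eˣ) : E) = 1)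
    (hu : ∃ u : Eˣ, (u : E) ∈ S g) :
    ∃ z : Eˣ, (z : E) ∈ S g ∧ ∀ i ∈ s, z * a i = a i * z := by
  classical
  induction s using Finset.induction_on with
  | empty =>
    obtain ⟨u, hu⟩ := hu
    exact ⟨u, hu, fun i hi => absurd hi (Finset.notMem_empty i)⟩
  | insert i s his ih =>
    obtain ⟨z, hz, hc⟩ := ih (fun j hj => ha j (Finset.mem_insert_of_mem hj))
      (fun j hj => a3 j (Finset.mem_insert_of_mem hj))
      (fun j hj l hl => ac j (Finset.mem_insert_of_mem hj) l (Finset.mem_insert_of_mem hl))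
      (fun j hj => hχ j (Finset.mem_insert_of_mem hj))
    have hi : i ∈ insert i s := Finset.mem_insert_self i s
    obtain ⟨-, z', hz', e1, e2⟩ := h.avg (hg i) (ha i hi) (ha i hi) hz (a3 i hi) (a3 i hi)
    refine ⟨z', hz', fun j hj => ?_⟩
    rcases Finset.mem_insert.1 hj with rfl | hj'
    · rw [hχ j hi z hz, one_smul] at e1
      exact Units.ext (by rw [Units.val_mul, Units.val_mul]; exact e1)
    · have hji : (a j : E) * a i = a i * a j := by
        have := congrArg (fun u : Eˣ => (u : E)) (ac j hj i hi)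
        simpa only [Units.val_mul] using this
      have hzj : (z : E) * a j = (1 : ℂ) • ((a j : E) * z) := by
        have := congrArg (fun u : Eˣ => (u : E)) (hc j hj')
        rw [one_smul]
        simpa only [Units.val_mul] using this
      have := e2 (a j) (a j) 1 hji hji hzj
      rw [one_smul] at this
      exact Units.ext (by rw [Units.val_mul, Units.val_mul]; exact this)

theorem Sys.lift_cube (h : Sys S χ) {g : Γ} (g3 : g ^ 3 = 1) {z : Eˣ} (hz : (z : E) ∈ S g) :
    ∃ z' : Eˣ, (z' : E) ∈ S g ∧ z' ^ 3 = 1 ∧ ∀ y : Eˣ, y * z = z * y → y * z' = z' * y := by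
  have hz3 : ((z ^ 3 : Eˣ) : E) ∈ S 1 := by
    have := h.mul (h.mul hz hz) hz
    rw [← g3]
    have e : g ^ 3 = g * g * g := by rw [pow_succ, pow_two]
    have e' : ((z ^ 3 : Eˣ) : E) = (z : E) * z * z := by
      rw [Units.val_pow_eq_pow_val, pow_succ, pow_two]
    rw [e, e']
    exact this
  obtain ⟨ζ, hζ⟩ := IsAlgClosed.exists_pow_nat_eq (χ ((z ^ 3 : Eˣ) : E)) (n := 3) (by norm_num)
  have hc0 := h.chi_ne hz3
  have hζ0 : ζ ≠ 0 := by
    rintro rfl
    rw [zero_pow (by norm_num)] at hζ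
    exact hc0 hζ.symm
  let c : Eˣ := Units.map (algebraMap ℂ E).toMonoidHom (Units.mk0 ζ⁻¹ (inv_ne_zero hζ0))
  have hcv : (c : E) = algebraMap ℂ E ζ⁻¹ := rfl
  have hcc : ∀ y : Eˣ, y * c = c * y := fun y =>
    Units.ext (by rw [Units.val_mul, Units.val_mul, hcv]; exact (Algebra.commutes _ _).symm)
  have hz1 : ((c * z : Eˣ) : E) ∈ S g := by
    rw [Units.val_mul, hcv, ← Algebra.smul_def]
    exact (S g).smul_mem _ hz
  have hx : (((c * z) ^ 3 : Eˣ) : E) = (ζ ^ 3)⁻¹ • ((z ^ 3 : Eˣ) : E) := by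
    have e : (c * z) ^ 3 = c ^ 3 * z ^ 3 := (Commute.mul_pow (show Commute c z from (hcc z).symm) 3)
    rw [e, Units.val_mul, Units.val_pow_eq_pow_val, hcv, ← map_pow, ← Algebra.smul_def, inv_pow]
  have hx1 : (((c * z) ^ 3 : Eˣ) : E) ∈ S 1 := by
    rw [hx]
    exact (S 1).smul_mem _ hz3
  have hχx : χ (((c * z) ^ 3 : Eˣ) : E) = 1 := by
    rw [hx, map_smul, ← hζ, smul_eq_mul, inv_mul_cancel₀ (pow_ne_zero 3 hζ0)]
  obtain ⟨v, hv, hv3, hvc⟩ := h.cube hx1 hχx
  have hv3' : v ^ 3 = (c * z) ^ 3 := Units.ext (by rw [Units.val_pow_eq_pow_val, hv3])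
  have hcomm : ∀ y : Eˣ, y * (c * z) = c * z * y → y * v = v * y := by
    intro y hy
    have h1 : Commute y ((c * z) ^ 3) := (show Commute y (c * z) from hy).pow_right 3
    have h2 : (y : E) * (((c * z) ^ 3 : Eˣ) : E) = (((c * z) ^ 3 : Eˣ) : E) * y := by
      rw [← Units.val_mul, ← Units.val_mul, h1.eq]
    exact Units.ext (by rw [Units.val_mul, Units.val_mul]; exact hvc _ h2)
  have hzv : Commute (c * z) v := hcomm (c * z) rfl
  refine ⟨c * z * v⁻¹, ?_, ?_, ?_⟩
  · have := h.mul hz1 (h.inv1 hv)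
    rw [mul_one] at this
    rw [Units.val_mul]
    exact this
  · rw [hzv.inv_right.mul_pow, inv_pow, hv3', mul_inv_cancel]
  · intro y hy
    have h1 : Commute y (c * z) := (show Commute y c from hcc y).mul_right hy
    have h2 : Commute y v := hcomm y h1
    exact (h1.mul_right h2.inv_right).eq

theorem Sys.lifts (h : Sys S χ) {ι : Type} [Finite ι] {τ : ι → Γ} (τ3 : ∀ i, τ i ^ 3 = 1)
    (τc : ∀ i j, τ i * τ j = τ j * τ i)
    (hsw : ∀ i j, ∃ (k : Γ) (z : Eˣ), (z : E) ∈ S k ∧ k * τ i = τ j * k ∧ k * τ j = τ i * k)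
    (hT : ∀ i, ∃ u : Eˣ, (u : E) ∈ S (τ i)) :
    ∃ a : ι → Eˣ, (∀ i, (a i : E) ∈ S (τ i)) ∧ (∀ i, a i ^ 3 = 1) ∧
      ∀ i j, a i * a j = a j * a i := by
  classical
  have := Fintype.ofFinite ι
  have key : ∀ s : Finset ι, ∃ a : ι → Eˣ, (∀ i ∈ s, (a i : E) ∈ S (τ i)) ∧
      (∀ i ∈ s, a i ^ 3 = 1) ∧ ∀ i ∈ s, ∀ j ∈ s, a i * a j = a j * a i := by
    intro s
    induction s using Finset.induction_on with
    | empty =>
      exact ⟨fun _ => 1, fun i hi => absurd hi (Finset.notMem_empty i),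
        fun i hi => absurd hi (Finset.notMem_empty i), fun i hi => absurd hi (Finset.notMem_empty i)⟩
    | insert j s hjs ih =>
      obtain ⟨a, ha, a3, ac⟩ := ih
      obtain ⟨z, hz, hc⟩ := h.lift_one (fun i => τc j i) s ha a3 ac
        (fun i hi w hw => by
          obtain ⟨k, w', hw', hk1, hk2⟩ := hsw j i
          exact h.comm (τc j i) (τ3 j) hk1 hk2 hw (ha i hi) hw') (hT j)
      obtain ⟨z', hz', z3, zc⟩ := h.lift_cube (τ3 j) hz
      have hne : ∀ i ∈ s, i ≠ j := fun i hi hij => hjs (hij ▸ hi)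
      have hc' : ∀ i ∈ s, a i * z' = z' * a i := fun i hi => zc (a i) (hc i hi).symm
      refine ⟨Function.update a j z', ?_, ?_, ?_⟩
      · intro i hi
        rcases Finset.mem_insert.1 hi with rfl | hi'
        · rw [Function.update_self]
          exact hz'
        · rw [Function.update_of_ne (hne i hi')]
          exact ha i hi'
      · intro i hi
        rcases Finset.mem_insert.1 hi with rfl | hi'
        · rw [Function.update_self]
          exact z3
        · rw [Function.update_of_ne (hne i hi')]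
          exact a3 i hi'
      · intro i hi l hl
        rcases Finset.mem_insert.1 hi with rfl | hi' <;> rcases Finset.mem_insert.1 hl with rfl | hl'
        · rfl
        · rw [Function.update_self, Function.update_of_ne (hne l hl')]
          exact (hc' l hl').symm
        · rw [Function.update_self, Function.update_of_ne (hne i hi')]
          exact hc' i hi'
        · rw [Function.update_of_ne (hne i hi'), Function.update_of_ne (hne l hl')]
          exact ac i hi' l hl'
  obtain ⟨a, h1, h2, h3⟩ := key Finset.univ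
  exact ⟨a, fun i => h1 i (Finset.mem_univ i), fun i => h2 i (Finset.mem_univ i),
    fun i j => h3 i (Finset.mem_univ i) j (Finset.mem_univ j)⟩

end PadDet.Eq
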