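import Pool.Agent.H.MP_d7db32_ag.Eq.F.Raw
import Pool.Agent.H.MP_d7db32_ag.Eq.F.Cw
import Pool.Agent.H.MP_d7db32_ag.Eq.Wt
import Pool.Agent.H.MP_d7db32_ag.Eq.L.Bch

/-!
# MP_d7db32_ag, Eq/F/MkW: weight coordinates

`wt` (Eq/Wt) for `B` and for `A`: `B i * S = S * diagonal (w · i)`, `A i * T = T * diagonal (w' · i)`. New pencil `L' = T⁻¹ L S`, `N = lcg T⁻¹ S M` (L/Bch), `c' = det T⁻¹ * det S * c`,
`P σ = S⁻¹ (Z σ) S`, `P' σ = T⁻¹ (Z' σ) T`.
`gL`, `gE`: `mor_tor` (L/Bas) for `mor i` conjugated: `diagonal (w' · i) L' = L' diagonal (w · i)`, entries. `gP`: `P σ * diagonal (w · i) = diagonal (w · (σ i)) * P σ`, entry `a' a`.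
`PL`, `PM`: `Mor` over `prm σ⁻¹` at `0` and at matrix units (`prm_single`, L/Bas; compare `Mor.zero` in M/Bas2).
`tw`: determinants of `A l Λ(X) = Λ(tor X) B l` at an `X` with `F X ≠ 0` (`exists_ne` in Low, or `hex`), `Fv_tor` (L/Bas), the product of the entries of `fun j => if l = j then q else 1` is `q`; `det (A l) = ∏ b, w' b l`,
`det (B l) = ∏ a, w a l` (from `B l * S = S * diagonal`, `det S ≠ 0`).
-/

set_option autoImplicit false

namespace PadDet.Eq

open Matrix

private theorem MkW_cnj {m : ℕ} {S S' T T' D C Q Q' : Matrix (Fin m) (Fin m) ℂ} {z : ℂ}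
    (hS : S * S' = 1) (hT : T * T' = 1) (h : D * Q = z • (Q' * C)) :
    T' * D * T * (T' * Q * S) = z • (T' * Q' * S * (S' * C * S)) := by
  calc T' * D * T * (T' * Q * S) = T' * D * (T * T') * Q * S := by
        simp only [Matrix.mul_assoc]
    _ = T' * (D * Q) * S := by rw [hT, Matrix.mul_one]; simp only [Matrix.mul_assoc]
    _ = z • (T' * (Q' * C) * S) := by rw [h, Matrix.mul_smul, Matrix.smul_mul]
    _ = z • (T' * Q' * (S * S') * C * S) := by
        rw [hS, Matrix.mul_one]; simp only [Matrix.mul_assoc]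
    _ = z • (T' * Q' * S * (S' * C * S)) := by simp only [Matrix.mul_assoc]

private theorem MkW_dg {m : ℕ} {S S' B D : Matrix (Fin m) (Fin m) ℂ} (hS : S' * S = 1)
    (h : B * S = S * D) : S' * B * S = D := by
  rw [Matrix.mul_assoc, h, ← Matrix.mul_assoc, hS, Matrix.one_mul]

private theorem MkW_gP {m : ℕ} {S S' Z B B' : Matrix (Fin m) (Fin m) ℂ} {x y : Fin m → ℂ}
    (hS : S * S' = 1) (hZ : Z * B = B' * Z) (h1 : S' * B * S = Matrix.diagonal x)
    (h2 : S' * B' * S = Matrix.diagonal y) {a' a : Fin m} (h : (S' * Z * S) a' a ≠ 0) :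
    y a' = x a := by
  have hZ' : Z * B = (1 : ℂ) • (B' * Z) := by rw [one_smul, hZ]
  have e := MkW_cnj hS hS hZ'
  rw [one_smul, h1, h2] at e
  have e2 := congrFun (congrFun e a') a
  rw [Matrix.mul_diagonal, Matrix.diagonal_mul, mul_comm _ (x a)] at e2
  exact (mul_right_cancel₀ h e2).symm

private theorem MkW_det {m : ℕ} {S B : Matrix (Fin m) (Fin m) ℂ} {x : Fin m → ℂ}
    (hS : IsUnit S.det) (h : B * S = S * Matrix.diagonal x) : B.det = ∏ a, x a := by
  have h6 := congrArg Matrix.det h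
  rw [Matrix.det_mul, Matrix.det_mul, Matrix.det_diagonal, mul_comm] at h6
  exact mul_left_cancel₀ hS.ne_zero h6

private theorem MkW_zm {n m : ℕ} {L : Matrix (Fin m) (Fin m) ℂ}
    {M : Matrix (Fin n) (Fin n) ℂ →ₗ[ℂ] Matrix (Fin m) (Fin m) ℂ} {σ : Equiv.Perm (Fin n)}
    {D C : Matrix (Fin m) (Fin m) ℂ} (h : Mor L M (prm σ⁻¹) D C) :
    D * L = L * C ∧ ∀ i j, D * M (Matrix.single i j 1) = M (Matrix.single (σ i) (σ j) 1) * C := by
  have h0 : D * L = L * C := by
    have h1 := h 0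
    have e : prm σ⁻¹ (0 : Matrix (Fin n) (Fin n) ℂ) = 0 := rfl
    rwa [e, map_zero, add_zero] at h1
  refine ⟨h0, fun i j => ?_⟩
  have h1 := h (Matrix.single i j 1)
  rw [prm_single, Equiv.Perm.inv_def, Equiv.symm_symm, Matrix.mul_add, Matrix.add_mul, h0] at h1
  exact add_left_cancel h1

theorem mk_w {k m : ℕ} {c q : ℂ} {L : Matrix (Fin m) (Fin m) ℂ}
    {M : Matrix (Fin (2 * k + 1)) (Fin (2 * k + 1)) ℂ →ₗ[ℂ] Matrix (Fin m) (Fin m) ℂ}
    (hc : c ≠ 0) (hdet : ∀ X, (L + M X).det = c * Fv X)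
    (hex : ∃ X : Matrix (Fin (2 * k + 1)) (Fin (2 * k + 1)) ℂ, Fv X ≠ 0) (q3 : q ^ 3 = 1)
    (q1 : q ≠ 1) {A B : Fin (2 * k + 1) → Matrix (Fin m) (Fin m) ℂ}
    {Z' Z : Equiv.Perm (Fin (2 * k + 1)) → Matrix (Fin m) (Fin m) ℂ}
    (R : Raw (2 * k + 1) m q L M A B Z' Z) :
    ∃ (c' : ℂ) (L' : Matrix (Fin m) (Fin m) ℂ)
      (N : Matrix (Fin (2 * k + 1)) (Fin (2 * k + 1)) ℂ →ₗ[ℂ] Matrix (Fin m) (Fin m) ℂ)
      (w w' : Fin m → Fin (2 * k + 1) → ℂ)
      (P P' : Equiv.Perm (Fin (2 * k + 1)) → Matrix (Fin m) (Fin m) ℂ),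
      CorW (2 * k + 1) m q c' L' N w w' P P' := by
  classical
  obtain ⟨X₀, hX₀⟩ := hex
  obtain ⟨S, w, hS, hSw, hw3⟩ := wt B R.Bc R.B3
  obtain ⟨T, w', hT, hTw, hw3'⟩ := wt A R.Ac R.A3
  have SS : S * S⁻¹ = 1 := Matrix.mul_nonsing_inv _ hS
  have SS2 : S⁻¹ * S = 1 := Matrix.nonsing_inv_mul _ hS
  have TT : T * T⁻¹ = 1 := Matrix.mul_nonsing_inv _ hT
  have TT2 : T⁻¹ * T = 1 := Matrix.nonsing_inv_mul _ hT
  have q0 : q ≠ 0 := by
    intro h
    rw [h] at q3
    norm_num at q3
  have hw0 : ∀ a l, w a l ≠ 0 := by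
    intro a l h
    have := hw3 a l
    rw [h] at this
    norm_num at this
  have hw0' : ∀ a l, w' a l ≠ 0 := by
    intro a l h
    have := hw3' a l
    rw [h] at this
    norm_num at this
  have dB : ∀ l, S⁻¹ * B l * S = Matrix.diagonal (fun a => w a l) := fun l => MkW_dg SS2 (hSw l)
  have dA : ∀ l, T⁻¹ * A l * T = Matrix.diagonal (fun a => w' a l) := fun l => MkW_dg TT2 (hTw l)
  have hfl : ∀ l x : Fin (2 * k + 1), (if l = x then q else 1) = (if x = l then q else 1) :=
    fun l x => if_congr eq_comm rfl rfl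
  refine ⟨T⁻¹.det * S.det * c, T⁻¹ * L * S, lcg T⁻¹ S M, w, w', fun σ => S⁻¹ * Z σ * S,
    fun σ => T⁻¹ * Z' σ * T, ?_⟩
  exact
    { q3 := q3
      q1 := q1
      c0 := mul_ne_zero (mul_ne_zero (Matrix.isUnit_nonsing_inv_det T hT).ne_zero hS.ne_zero) hc
      det := by
        intro X
        have h1 : T⁻¹ * L * S + lcg T⁻¹ S M X = T⁻¹ * (L + M X) * S := by
          show T⁻¹ * L * S + T⁻¹ * M X * S = T⁻¹ * (L + M X) * S
          rw [Matrix.mul_add, Matrix.add_mul]
        rw [h1, Matrix.det_mul, Matrix.det_mul, hdet]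
        ring
      w0 := hw0
      w0' := hw0'
      w3 := hw3
      w3' := hw3'
      gL := by
        intro b a h
        funext l
        have h0 : A l * L = (1 : ℂ) • (L * B l) := by
          rw [one_smul]
          exact (mor_tor.1 (R.mor l)).1
        have h1 := MkW_cnj SS TT h0
        rw [one_smul, dA, dB] at h1
        have h2 := congrFun (congrFun h1 b) a
        rw [Matrix.diagonal_mul, Matrix.mul_diagonal, mul_comm (w' b l)] at h2
        exact mul_left_cancel₀ h h2
      gE := by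
        intro b a i j h l
        change (T⁻¹ * M (Matrix.single i j 1) * S) b a ≠ 0 at h
        have h0 : A l * M (Matrix.single i j 1) =
            ((if i = l then q else 1) * (if j = l then q else 1)) •
              (M (Matrix.single i j 1) * B l) := by
          have h3 := (mor_tor.1 (R.mor l)).2 i j
          simp only [hfl l] at h3
          exact h3
        have h1 := MkW_cnj SS TT h0
        rw [dA, dB] at h1
        have h2 := congrFun (congrFun h1 b) a
        rw [Matrix.diagonal_mul, Matrix.smul_apply, Matrix.mul_diagonal, smul_eq_mul] at h2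
        refine mul_left_cancel₀ h ?_
        rw [mul_comm _ (w' b l), h2]
        ring
      gP := fun σ a' a h l => MkW_gP SS (R.zb σ l) (dB l) (dB (σ l)) h
      gP' := fun σ b' b h l => MkW_gP TT (R.za σ l) (dA l) (dA (σ l)) h
      Pu := by
        intro σ
        show (S⁻¹ * Z σ * S).det ≠ 0
        rw [Matrix.det_mul, Matrix.det_mul]
        exact mul_ne_zero (mul_ne_zero (Matrix.isUnit_nonsing_inv_det S hS).ne_zero (R.Zu σ))
          hS.ne_zero
      Pu' := by
        intro σ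
        show (T⁻¹ * Z' σ * T).det ≠ 0
        rw [Matrix.det_mul, Matrix.det_mul]
        exact mul_ne_zero (mul_ne_zero (Matrix.isUnit_nonsing_inv_det T hT).ne_zero (R.Zu' σ))
          hT.ne_zero
      PL := by
        intro σ
        have h0 : Z' σ * L = (1 : ℂ) • (L * Z σ) := by
          rw [one_smul]
          exact (MkW_zm (R.zm σ)).1
        have h1 := MkW_cnj SS TT h0
        rw [one_smul] at h1
        exact h1
      PM := by
        intro σ i j
        have h0 : Z' σ * M (Matrix.single i j 1) =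
            (1 : ℂ) • (M (Matrix.single (σ i) (σ j) 1) * Z σ) := by
          rw [one_smul]
          exact (MkW_zm (R.zm σ)).2 i j
        have h1 := MkW_cnj SS TT h0
        rw [one_smul] at h1
        exact h1
      tw := by
        intro l
        have ht : ∀ x : Fin (2 * k + 1), (fun j => if l = j then q else 1) x ≠ 0 := by
          intro x
          show (if l = x then q else 1) ≠ 0
          split_ifs
          · exact q0
          · exact one_ne_zero
        have h3 := congrArg Matrix.det (R.mor l X₀)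
        rw [Matrix.det_mul, Matrix.det_mul, hdet, hdet, Fv_tor ht, MkW_det hS (hSw l),
          MkW_det hT (hTw l), Finset.prod_ite_eq Finset.univ l (fun _ => q),
          if_pos (Finset.mem_univ l)] at h3
        have h8 : (∏ b, w' b l) * (c * Fv X₀) = (q ^ 2 * ∏ a, w a l) * (c * Fv X₀) := by
          rw [h3]; ring
        exact mul_right_cancel₀ (mul_ne_zero hc hX₀) h8 }

end PadDet.Eq
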