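import Pool.Agent.H.MP_d7db32_ag.Eq.L.Bas

/-!
# MP_d7db32_ag, Eq/F/Ten: the torus and the permutations as permutations of the set of matrices
-/

set_option autoImplicit false

namespace PadDet.Eq

open Matrix

variable {n : ℕ}

theorem tor_tor (s t : Fin n → ℂ) (X : Matrix (Fin n) (Fin n) ℂ) :
    tor s (tor t X) = tor (fun i => s i * t i) X := by
  ext i j
  unfold tor
  simp only [Matrix.of_apply]
  ring

theorem tor_one (X : Matrix (Fin n) (Fin n) ℂ) : tor (fun _ => 1) X = X := by
  ext i j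
  unfold tor
  simp only [Matrix.of_apply]
  ring

/-- The torus. -/
noncomputable def torE : (Fin n → ℂˣ) →* Equiv.Perm (Matrix (Fin n) (Fin n) ℂ) where
  toFun t :=
    { toFun := tor fun i => (t i : ℂ)
      invFun := tor fun i => (((t i)⁻¹ : ℂˣ) : ℂ)
      left_inv := fun X => by
        rw [tor_tor]
        simp only [Units.inv_mul]
        exact tor_one X
      right_inv := fun X => by
        rw [tor_tor]
        simp only [Units.mul_inv]
        exact tor_one X }
  map_one' := by
    ext1 X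
    exact tor_one X
  map_mul' s t := by
    ext1 X
    show tor (fun i => ((s i * t i : ℂˣ) : ℂ)) X = tor _ (tor _ X)
    rw [tor_tor]
    simp only [Units.val_mul]

/-- The permutations. -/
def prmE : Equiv.Perm (Fin n) →* Equiv.Perm (Matrix (Fin n) (Fin n) ℂ) where
  toFun σ :=
    { toFun := prm σ⁻¹
      invFun := prm σ
      left_inv := fun X => by
        ext i j
        show X (σ⁻¹ (σ i)) (σ⁻¹ (σ j)) = X i j
        simp
      right_inv := fun X => by
        ext i j
        show X (σ (σ⁻¹ i)) (σ (σ⁻¹ j)) = X i j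
        simp }
  map_one' := by
    ext1 X
    rfl
  map_mul' σ τ := by
    ext1 X
    rfl

theorem torE_apply (t : Fin n → ℂˣ) (X : Matrix (Fin n) (Fin n) ℂ) :
    torE t X = tor (fun i => (t i : ℂ)) X := rfl

theorem prmE_apply (σ : Equiv.Perm (Fin n)) (X : Matrix (Fin n) (Fin n) ℂ) :
    prmE σ X = prm σ⁻¹ X := rfl

theorem prmE_torE (σ : Equiv.Perm (Fin n)) (t : Fin n → ℂˣ) :
    prmE σ * torE t = torE (fun i => t (σ⁻¹ i)) * prmE σ := by
  ext1 X
  rfl

theorem prmE_single (σ : Equiv.Perm (Fin n)) (z : ℂˣ) (i : Fin n) :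
    prmE σ * torE (Pi.mulSingle i z) = torE (Pi.mulSingle (σ i) z) * prmE σ := by
  rw [prmE_torE]
  congr 2
  funext j
  by_cases h : j = σ i
  · subst h
    rw [Pi.mulSingle_eq_same, Equiv.Perm.inv_def, Equiv.symm_apply_apply, Pi.mulSingle_eq_same]
  · rw [Pi.mulSingle_eq_of_ne h, Pi.mulSingle_eq_of_ne]
    intro h'
    apply h
    rw [← h']
    simp

theorem torE_cube {z : ℂˣ} (hz : z ^ 3 = 1) (i : Fin n) :
    (torE (Pi.mulSingle i z : Fin n → ℂˣ)) ^ 3 = 1 := by
  rw [← map_pow, ← Pi.mulSingle_pow, hz, Pi.mulSingle_one, map_one]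

theorem torE_comm (s t : Fin n → ℂˣ) : torE s * torE t = torE t * torE s := by
  rw [← map_mul, mul_comm, map_mul]

end PadDet.Eq
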