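import Pool.Agent.H.MP_d7db32_ag.Eq.F.Fnl
import Pool.Agent.H.MP_d7db32_ag.Eq.F.Chi
import Pool.Agent.H.MP_d7db32_ag.Eq.F.Ten

/-!
# MP_d7db32_ag, Eq/F/Raw: lifts of `μ₃ ^ n` and of the permutations for a primitive pencil

`raw`: `sys_of` and `Sys.fnl` with `N = 2 k`, `τ i = torE (Pi.mulSingle i q)` (`q` as a unit, `torE_cube`, `torE_comm`), `π = prmE` (`prmE_single`). A unit of `Pr m` is a pair
of invertible matrices (components of `u` and `u⁻¹`); from `Eqv` one gets a unit in `Lif`. `Pi.mulSingle i q j = if i = j then q else 1`.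
-/

set_option autoImplicit false

namespace PadDet.Eq

open Matrix

/-- Commuting lifts of order three of the generators of the torus `μ₃ ^ n`, and lifts of the permutations which permute them. -/
structure Raw (n m : ℕ) (q : ℂ) (L : Matrix (Fin m) (Fin m) ℂ)
    (M : Matrix (Fin n) (Fin n) ℂ →ₗ[ℂ] Matrix (Fin m) (Fin m) ℂ)
    (A B : Fin n → Matrix (Fin m) (Fin m) ℂ)
    (Z' Z : Equiv.Perm (Fin n) → Matrix (Fin m) (Fin m) ℂ) : Prop where
  A3 : ∀ i, A i ^ 3 = 1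
  B3 : ∀ i, B i ^ 3 = 1
  Ac : ∀ i j, A i * A j = A j * A i
  Bc : ∀ i j, B i * B j = B j * B i
  mor : ∀ i, Mor L M (tor fun j => if i = j then q else 1) (A i) (B i)
  Zu' : ∀ σ, (Z' σ).det ≠ 0
  Zu : ∀ σ, (Z σ).det ≠ 0
  zm : ∀ σ, Mor L M (prm σ⁻¹) (Z' σ) (Z σ)
  za : ∀ σ i, Z' σ * A i = A (σ i) * Z' σ
  zb : ∀ σ i, Z σ * B i = B (σ i) * Z σ

private theorem Raw_unit {n m : ℕ} {L : Matrix (Fin m) (Fin m) ℂ}
    {M : Matrix (Fin n) (Fin n) ℂ →ₗ[ℂ] Matrix (Fin m) (Fin m) ℂ}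
    {g' : Matrix (Fin n) (Fin n) ℂ → Matrix (Fin n) (Fin n) ℂ}
    (g : Equiv.Perm (Matrix (Fin n) (Fin n) ℂ)) (hg : ∀ X, g X = g' X) (h : Eqv L M g') :
    ∃ u : (Pr m)ˣ, (u : Pr m) ∈ Lif L M g := by
  obtain ⟨A, B, hA, hB, hm⟩ := h
  have hA' : IsUnit A := (Matrix.isUnit_iff_isUnit_det A).2 (isUnit_iff_ne_zero.2 hA)
  have hB' : IsUnit B := (Matrix.isUnit_iff_isUnit_det B).2 (isUnit_iff_ne_zero.2 hB)
  obtain ⟨u, hu⟩ := (Prod.isUnit_iff (x := ((A, B) : Pr m))).2 ⟨hA', hB'⟩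
  refine ⟨u, ?_⟩
  rw [hu, mem_Lif]
  intro X
  show A * (L + M X) = (L + M (g X)) * B
  rw [hg]
  exact hm X

private theorem Raw_det {m : ℕ} (u : (Pr m)ˣ) :
    ((u : Pr m).1).det ≠ 0 ∧ ((u : Pr m).2).det ≠ 0 := by
  have h := Prod.isUnit_iff.1 u.isUnit
  exact ⟨isUnit_iff_ne_zero.1 ((Matrix.isUnit_iff_isUnit_det _).1 h.1),
    isUnit_iff_ne_zero.1 ((Matrix.isUnit_iff_isUnit_det _).1 h.2)⟩

theorem raw {k m : ℕ} {c q : ℂ} {L : Matrix (Fin m) (Fin m) ℂ}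
    {M : Matrix (Fin (2 * k + 1)) (Fin (2 * k + 1)) ℂ →ₗ[ℂ] Matrix (Fin m) (Fin m) ℂ}
    (hc : c ≠ 0) (hdet : ∀ X, (L + M X).det = c * Fv X) (hP : Prim L M) (hm : m ≠ 0)
    (q3 : q ^ 3 = 1) (hT : ∀ t : Fin (2 * k + 1) → ℂ, (∀ i, t i ^ 3 = 1) → Eqv L M (tor t))
    (hS : ∀ σ : Equiv.Perm (Fin (2 * k + 1)), Eqv L M (prm σ)) :
    ∃ A B Z' Z, Raw (2 * k + 1) m q L M A B Z' Z := by
  have hq : q ≠ 0 := by
    rintro rfl
    rw [zero_pow three_ne_zero] at q3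
    exact zero_ne_one q3
  obtain ⟨r, hr⟩ : ∃ r : ℂˣ, (r : ℂ) = q := ⟨Units.mk0 q hq, rfl⟩
  have hr3 : r ^ 3 = 1 := by
    apply Units.ext
    rw [Units.val_pow_eq_pow_val, hr, q3, Units.val_one]
  have htor : ∀ i : Fin (2 * k + 1), (fun j => ((Pi.mulSingle i r : Fin (2 * k + 1) → ℂˣ) j : ℂ)) =
      fun j => if i = j then q else 1 := by
    intro i
    funext j
    by_cases h : i = j
    · subst h
      rw [Pi.mulSingle_eq_same, if_pos rfl, hr]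
    · rw [Pi.mulSingle_eq_of_ne (fun h' => h h'.symm), if_neg h, Units.val_one]
  have h := sys_of hc hdet hP hm
  obtain ⟨a, ha, a3, ac, hz⟩ := h.fnl (τ := fun i => torE (Pi.mulSingle i r)) (π := prmE)
    (fun i => torE_cube hr3 i) (fun i j => torE_comm _ _) (fun σ i => prmE_single σ r i)
    (fun i => Raw_unit _ (fun X => torE_apply _ X) (hT _ (fun j => by
      rw [congrFun (htor i) j]
      split_ifs
      · exact q3
      · exact one_pow 3)))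
    (fun σ => Raw_unit _ (fun X => prmE_apply σ X) (hS σ⁻¹))
  choose z hzm hza using hz
  refine ⟨fun i => (a i : Pr m).1, fun i => (a i : Pr m).2, fun σ => (z σ : Pr m).1,
    fun σ => (z σ : Pr m).2, ?_⟩
  refine ⟨fun i => ?_, fun i => ?_, fun i j => ?_, fun i j => ?_, fun i => ?_,
    fun σ => (Raw_det (z σ)).1, fun σ => (Raw_det (z σ)).2, fun σ => ?_, fun σ i => ?_,
    fun σ i => ?_⟩
  · have h1 := congrArg (fun u : (Pr m)ˣ => (u : Pr m).1) (a3 i)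
    simpa only [Units.val_pow_eq_pow_val, Prod.pow_fst, Units.val_one, Prod.fst_one] using h1
  · have h1 := congrArg (fun u : (Pr m)ˣ => (u : Pr m).2) (a3 i)
    simpa only [Units.val_pow_eq_pow_val, Prod.pow_snd, Units.val_one, Prod.snd_one] using h1
  · exact congrArg (fun u : (Pr m)ˣ => (u : Pr m).1) (ac i j)
  · exact congrArg (fun u : (Pr m)ˣ => (u : Pr m).2) (ac i j)
  · have h1 : Mor L M (tor fun j => ((Pi.mulSingle i r : Fin (2 * k + 1) → ℂˣ) j : ℂ))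
        (a i : Pr m).1 (a i : Pr m).2 := ha i
    rw [htor i] at h1
    exact h1
  · exact hzm σ
  · exact congrArg (fun u : (Pr m)ˣ => (u : Pr m).1) (hza σ i)
  · exact congrArg (fun u : (Pr m)ˣ => (u : Pr m).2) (hza σ i)

end PadDet.Eq
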