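import Pool.Agent.H.MP_d7db32_ag.Eq.F.FnlA
import Pool.Agent.H.MP_d7db32_ag.Eq.F.CocA
import Pool.Agent.H.MP_d7db32_ag.Eq.F.Chi
import Pool.Agent.H.MP_d7db32_ag.Eq.F.Ten

/-!
# MP_d7db32_ag, Eq/F/RawA: lifts of `μ₃ ^ n` and of the even permutations for a primitive pencil

Like F/Raw with `Sys.fnlA` (`A = alternatingGroup`, `π = prmE.comp (Subgroup.subtype _)`) and `cocA` (`N = 2 k ≥ 6`). `hsw`: for `i ≠ j` take `x ≠ y` different from `i, j`, `σ = swap i j * swap x y`; for `i = j`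
the identity.
-/

set_option autoImplicit false

namespace PadDet.Eq

open Matrix

/-- Commuting lifts of order three of the generators of the torus `μ₃ ^ n`, and lifts of the even permutations which permute them. -/
structure RawA (n m : ℕ) (q : ℂ) (L : Matrix (Fin m) (Fin m) ℂ)
    (M : Matrix (Fin n) (Fin n) ℂ →ₗ[ℂ] Matrix (Fin m) (Fin m) ℂ)
    (A B : Fin n → Matrix (Fin m) (Fin m) ℂ)
    (Z' Z : Equiv.Perm (Fin n) → Matrix (Fin m) (Fin m) ℂ) : Prop where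
  A3 : ∀ i, A i ^ 3 = 1
  B3 : ∀ i, B i ^ 3 = 1
  Ac : ∀ i j, A i * A j = A j * A i
  Bc : ∀ i j, B i * B j = B j * B i
  mor : ∀ i, Mor L M (tor fun j => if i = j then q else 1) (A i) (B i)
  Zu' : ∀ σ, Equiv.Perm.sign σ = 1 → (Z' σ).det ≠ 0
  Zu : ∀ σ, Equiv.Perm.sign σ = 1 → (Z σ).det ≠ 0
  zm : ∀ σ, Equiv.Perm.sign σ = 1 → Mor L M (prm σ⁻¹) (Z' σ) (Z σ)
  za : ∀ σ, Equiv.Perm.sign σ = 1 → ∀ i, Z' σ * A i = A (σ i) * Z' σ
  zb : ∀ σ, Equiv.Perm.sign σ = 1 → ∀ i, Z σ * B i = B (σ i) * Z σ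

private theorem RawA_unit {n m : ℕ} {L : Matrix (Fin m) (Fin m) ℂ}
    {M : Matrix (Fin n) (Fin n) ℂ →ₗ[ℂ] Matrix (Fin m) (Fin m) ℂ}
    {g' : Matrix (Fin n) (Fin n) ℂ → Matrix (Fin n) (Fin n) ℂ}
    (g : Equiv.Perm (Matrix (Fin n) (Fin n) ℂ)) (hg : ∀ X, g X = g' X) (h : Eqv L M g') :
    ∃ u : (Pr m)ˣ, (u : Pr m) ∈ Lif L M g := by
  obtain ⟨A, B, hA, hB, hm⟩ := h
  have hA' : IsUnit A := (Matrix.isUnit_iff_isUnit_det A).2 (isUnit_iff_ne_zero.2 hA)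
  have hB' : IsUnit B := (Matrix.isUnit_iff_isUnit_det B).2 (isUnit_iff_ne_zero.2 hB)
  obtain ⟨u, hu⟩ := (Prod.isUnit_iff (x := ((A, B) : Pr m))).2 ⟨hA', hB'⟩
  refine ⟨u, ?_⟩
  rw [hu, mem_Lif]
  intro X
  show A * (L + M X) = (L + M (g X)) * B
  rw [hg]
  exact hm X

private theorem RawA_det {m : ℕ} (u : (Pr m)ˣ) :
    ((u : Pr m).1).det ≠ 0 ∧ ((u : Pr m).2).det ≠ 0 := by
  have h := Prod.isUnit_iff.1 u.isUnit
  exact ⟨isUnit_iff_ne_zero.1 ((Matrix.isUnit_iff_isUnit_det _).1 h.1),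
    isUnit_iff_ne_zero.1 ((Matrix.isUnit_iff_isUnit_det _).1 h.2)⟩

private theorem RawA_sw {k : ℕ} (hk : 3 ≤ k) (i j : Fin (2 * k + 1)) :
    ∃ σ : alternatingGroup (Fin (2 * k + 1)), (σ : Equiv.Perm (Fin (2 * k + 1))) i = j ∧
      (σ : Equiv.Perm (Fin (2 * k + 1))) j = i := by
  classical
  by_cases hij : i = j
  · subst hij
    exact ⟨1, rfl, rfl⟩
  · obtain ⟨x, hx⟩ : ∃ x, x ∉ ({i, j} : Finset (Fin (2 * k + 1))) := by
      by_contra hcon
      push Not at hcon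
      have h1 := Finset.card_le_card (fun x _ => hcon x : (Finset.univ : Finset (Fin (2 * k + 1))) ⊆ {i, j})
      have h2 : ({i, j} : Finset (Fin (2 * k + 1))).card ≤ 2 := Finset.card_le_two
      rw [Finset.card_univ, Fintype.card_fin] at h1
      omega
    obtain ⟨y, hy⟩ : ∃ y, y ∉ ({i, j, x} : Finset (Fin (2 * k + 1))) := by
      by_contra hcon
      push Not at hcon
      have h1 := Finset.card_le_card (fun x _ => hcon x : (Finset.univ : Finset (Fin (2 * k + 1))) ⊆ {i, j, x})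
      have h2 : ({i, j, x} : Finset (Fin (2 * k + 1))).card ≤ 3 := Finset.card_le_three
      rw [Finset.card_univ, Fintype.card_fin] at h1
      omega
    simp only [Finset.mem_insert, Finset.mem_singleton, not_or] at hx hy
    refine ⟨⟨Equiv.swap i j * Equiv.swap x y, ?_⟩, ?_, ?_⟩
    · rw [Equiv.Perm.mem_alternatingGroup, Equiv.Perm.sign_mul, Equiv.Perm.sign_swap hij,
        Equiv.Perm.sign_swap (Ne.symm hy.2.2)]
      rfl
    · show Equiv.swap i j (Equiv.swap x y i) = j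
      rw [Equiv.swap_apply_of_ne_of_ne (Ne.symm hx.1) (Ne.symm hy.1), Equiv.swap_apply_left]
    · show Equiv.swap i j (Equiv.swap x y j) = i
      rw [Equiv.swap_apply_of_ne_of_ne (Ne.symm hx.2) (Ne.symm hy.2.1), Equiv.swap_apply_right]

theorem rawA {k m : ℕ} (hk : 3 ≤ k) {c q : ℂ} {L : Matrix (Fin m) (Fin m) ℂ}
    {M : Matrix (Fin (2 * k + 1)) (Fin (2 * k + 1)) ℂ →ₗ[ℂ] Matrix (Fin m) (Fin m) ℂ}
    (hc : c ≠ 0) (hdet : ∀ X, (L + M X).det = c * Fv X) (hP : Prim L M) (hm : m ≠ 0)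
    (q3 : q ^ 3 = 1) (hT : ∀ t : Fin (2 * k + 1) → ℂ, (∀ i, t i ^ 3 = 1) → Eqv L M (tor t))
    (hS : ∀ σ : Equiv.Perm (Fin (2 * k + 1)), Equiv.Perm.sign σ = 1 → Eqv L M (prm σ)) :
    ∃ A B Z' Z, RawA (2 * k + 1) m q L M A B Z' Z := by
  classical
  have hq : q ≠ 0 := by
    rintro rfl
    rw [zero_pow three_ne_zero] at q3
    exact zero_ne_one q3
  obtain ⟨r, hr⟩ : ∃ r : ℂˣ, (r : ℂ) = q := ⟨Units.mk0 q hq, rfl⟩
  have hr3 : r ^ 3 = 1 := by
    apply Units.ext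
    rw [Units.val_pow_eq_pow_val, hr, q3, Units.val_one]
  have htor : ∀ i : Fin (2 * k + 1), (fun j => ((Pi.mulSingle i r : Fin (2 * k + 1) → ℂˣ) j : ℂ)) =
      fun j => if i = j then q else 1 := by
    intro i
    funext j
    by_cases h : i = j
    · subst h
      rw [Pi.mulSingle_eq_same, if_pos rfl, hr]
    · rw [Pi.mulSingle_eq_of_ne (fun h' => h h'.symm), if_neg h, Units.val_one]
  have h := sys_of hc hdet hP hm
  obtain ⟨π, hπ⟩ : ∃ π : alternatingGroup (Fin (2 * k + 1)) →*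
      Equiv.Perm (Matrix (Fin (2 * k + 1)) (Fin (2 * k + 1)) ℂ),
      ∀ σ, π σ = prmE (σ : Equiv.Perm (Fin (2 * k + 1))) :=
    ⟨prmE.comp (Subgroup.subtype (alternatingGroup (Fin (2 * k + 1)))), fun σ => rfl⟩
  have hsg : ∀ σ : alternatingGroup (Fin (2 * k + 1)),
      Equiv.Perm.sign (σ : Equiv.Perm (Fin (2 * k + 1)))⁻¹ = 1 := by
    intro σ
    rw [Equiv.Perm.sign_inv]
    exact Equiv.Perm.mem_alternatingGroup.1 σ.2
  have hU : ∀ σ : alternatingGroup (Fin (2 * k + 1)), ∃ u : (Pr m)ˣ,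
      (u : Pr m) ∈ Lif L M (π σ) := by
    intro σ
    rw [hπ]
    exact RawA_unit _ (fun X => prmE_apply (σ : Equiv.Perm (Fin (2 * k + 1))) X)
      (hS _ (hsg σ))
  have hV : ∀ i : Fin (2 * k + 1), ∃ u : (Pr m)ˣ,
      (u : Pr m) ∈ Lif L M (torE (Pi.mulSingle i r)) := by
    intro i
    refine RawA_unit _ (fun X => torE_apply _ X) (hT _ (fun j => ?_))
    rw [congrFun (htor i) j]
    split_ifs
    · exact q3
    · exact one_pow 3
  have hW : ∀ (σ : alternatingGroup (Fin (2 * k + 1))) (i : Fin (2 * k + 1)),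
      π σ * torE (Pi.mulSingle i r) =
        torE (Pi.mulSingle ((σ : Equiv.Perm (Fin (2 * k + 1))) i) r) * π σ := by
    intro σ i
    rw [hπ]
    exact prmE_single (σ : Equiv.Perm (Fin (2 * k + 1))) r i
  obtain ⟨a, ha, a3, ac, hz⟩ := h.fnlA (τ := fun i => torE (Pi.mulSingle i r))
    (A := alternatingGroup (Fin (2 * k + 1))) (π := π)
    (fun i => torE_cube hr3 i) (fun i j => torE_comm _ _) hW
    (RawA_sw hk) (cocA (N := 2 * k) (by omega)) hV hU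
  choose z hzm hza using hz
  have hz : ∀ σ : Equiv.Perm (Fin (2 * k + 1)), ∃ u : (Pr m)ˣ, Equiv.Perm.sign σ = 1 →
      ((u : Pr m) ∈ Lif L M (prmE σ) ∧ ∀ i, u * a i = a (σ i) * u) := by
    intro σ
    by_cases hσ : Equiv.Perm.sign σ = 1
    · refine ⟨z ⟨σ, Equiv.Perm.mem_alternatingGroup.2 hσ⟩, fun _ => ⟨?_, fun i => ?_⟩⟩
      · have h1 := hzm ⟨σ, Equiv.Perm.mem_alternatingGroup.2 hσ⟩
        rw [hπ] at h1
        exact h1
      · exact hza ⟨σ, Equiv.Perm.mem_alternatingGroup.2 hσ⟩ i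
    · exact ⟨1, fun h => absurd h hσ⟩
  choose y hy using hz
  refine ⟨fun i => (a i : Pr m).1, fun i => (a i : Pr m).2, fun σ => (y σ : Pr m).1,
    fun σ => (y σ : Pr m).2, ?_⟩
  refine ⟨fun i => ?_, fun i => ?_, fun i j => ?_, fun i j => ?_, fun i => ?_,
    fun σ _ => (RawA_det (y σ)).1, fun σ _ => (RawA_det (y σ)).2, fun σ hσ => ?_,
    fun σ hσ i => ?_, fun σ hσ i => ?_⟩
  · have h1 := congrArg (fun u : (Pr m)ˣ => (u : Pr m).1) (a3 i)
    simpa only [Units.val_pow_eq_pow_val, Prod.pow_fst, Units.val_one, Prod.fst_one] using h1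
  · have h1 := congrArg (fun u : (Pr m)ˣ => (u : Pr m).2) (a3 i)
    simpa only [Units.val_pow_eq_pow_val, Prod.pow_snd, Units.val_one, Prod.snd_one] using h1
  · exact congrArg (fun u : (Pr m)ˣ => (u : Pr m).1) (ac i j)
  · exact congrArg (fun u : (Pr m)ˣ => (u : Pr m).2) (ac i j)
  · have h1 : Mor L M (tor fun j => ((Pi.mulSingle i r : Fin (2 * k + 1) → ℂˣ) j : ℂ))
        (a i : Pr m).1 (a i : Pr m).2 := ha i
    rw [htor i] at h1
    exact h1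
  · exact (hy σ hσ).1
  · exact congrArg (fun u : (Pr m)ˣ => (u : Pr m).1) ((hy σ hσ).2 i)
  · exact congrArg (fun u : (Pr m)ˣ => (u : Pr m).2) ((hy σ hσ).2 i)

end PadDet.Eq
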