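import Mathlib

/-!
# MP_d7db32_ag, Eq/F/Sys: lifts of a group, abstractly

`E` is a `ℂ`-algebra, `S g` the space of lifts of `g`, `χ` the character of `S 1` (a local algebra).
-/

set_option autoImplicit false

namespace PadDet.Eq

variable {E : Type} [Ring E] [Algebra ℂ E] {Γ : Type} [Group Γ]

/-- Lifts of the elements of `Γ` to `E`. -/
structure Sys (S : Γ → Submodule ℂ E) (χ : E →ₗ[ℂ] ℂ) : Prop where
  one : (1 : E) ∈ S 1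
  mul : ∀ {g h : Γ} {x y : E}, x ∈ S g → y ∈ S h → x * y ∈ S (g * h)
  inv : ∀ {g : Γ} {u : Eˣ}, (u : E) ∈ S g → ((u⁻¹ : Eˣ) : E) ∈ S g⁻¹
  chi1 : χ 1 = 1
  chim : ∀ {x y : E}, x ∈ S 1 → y ∈ S 1 → χ (x * y) = χ x * χ y
  unit : ∀ {x : E}, x ∈ S 1 → χ x ≠ 0 → IsUnit x
  conj : ∀ {g : Γ} {u : Eˣ} {x : E}, (u : E) ∈ S g → x ∈ S 1 →
    χ ((u : E) * x * ((u⁻¹ : Eˣ) : E)) = χ x
  cube : ∀ {x : E}, x ∈ S 1 → χ x = 1 → ∃ v : Eˣ, (v : E) ∈ S 1 ∧ (v : E) ^ 3 = x ∧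
    ∀ y : E, y * x = x * y → y * v = v * y

variable {S : Γ → Submodule ℂ E} {χ : E →ₗ[ℂ] ℂ}

theorem Sys.inv1 (h : Sys S χ) {u : Eˣ} (hu : (u : E) ∈ S 1) : ((u⁻¹ : Eˣ) : E) ∈ S 1 := by
  have := h.inv hu
  rwa [inv_one] at this

theorem Sys.mul1 (h : Sys S χ) {x y : E} (hx : x ∈ S 1) (hy : y ∈ S 1) : x * y ∈ S 1 := by
  have := h.mul hx hy
  rwa [one_mul] at this

theorem Sys.chi_inv (h : Sys S χ) {u : Eˣ} (hu : (u : E) ∈ S 1) :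
    χ (u : E) * χ ((u⁻¹ : Eˣ) : E) = 1 := by
  rw [← h.chim hu (h.inv1 hu), Units.mul_inv, h.chi1]

theorem Sys.chi_ne (h : Sys S χ) {u : Eˣ} (hu : (u : E) ∈ S 1) : χ (u : E) ≠ 0 :=
  left_ne_zero_of_mul_eq_one (h.chi_inv hu)

/-- The lifts of a fixed element differ by units of `S 1`. -/
theorem Sys.div (h : Sys S χ) {g : Γ} {u v : Eˣ} (hu : (u : E) ∈ S g) (hv : (v : E) ∈ S g) :
    ((u * v⁻¹ : Eˣ) : E) ∈ S 1 := by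
  have := h.mul hu (h.inv hv)
  rwa [mul_inv_cancel] at this

/-- Conjugation keeps `S 1`. -/
theorem Sys.cj (h : Sys S χ) {g : Γ} {u : Eˣ} {x : E} (hu : (u : E) ∈ S g) (hx : x ∈ S 1) :
    (u : E) * x * ((u⁻¹ : Eˣ) : E) ∈ S 1 := by
  have := h.mul (h.mul hu hx) (h.inv hu)
  rwa [mul_one, mul_inv_cancel] at this

/-- Lifts of `k * g' * k⁻¹ * g⁻¹ = 1`. -/
theorem Sys.cmm (h : Sys S χ) {g g' k : Γ} (hk : k * g' = g * k) {a b z : Eˣ}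
    (ha : (a : E) ∈ S g) (hb : (b : E) ∈ S g') (hz : (z : E) ∈ S k) :
    ((z * b * z⁻¹ * a⁻¹ : Eˣ) : E) ∈ S 1 := by
  have := h.mul (h.mul (h.mul hz hb) (h.inv hz)) (h.inv ha)
  rw [hk, mul_assoc g, mul_inv_cancel, mul_one, mul_inv_cancel] at this
  push_cast
  exact this

/-- The number `χ (z b z⁻¹ a⁻¹)` does not depend on the lift `z`. -/
theorem Sys.indep (h : Sys S χ) {g g' k : Γ} (hk : k * g' = g * k) {a b z z₂ : Eˣ}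
    (ha : (a : E) ∈ S g) (hb : (b : E) ∈ S g') (hz : (z : E) ∈ S k) (hz₂ : (z₂ : E) ∈ S k) :
    χ ((z₂ * b * z₂⁻¹ * a⁻¹ : Eˣ) : E) = χ ((z * b * z⁻¹ * a⁻¹ : Eˣ) : E) := by
  have hρ : ((z₂ * z⁻¹ : Eˣ) : E) ∈ S 1 := h.div hz₂ hz
  have hr := h.cmm hk ha hb hz
  have hρ' : ((a * (z₂ * z⁻¹)⁻¹ * a⁻¹ : Eˣ) : E) ∈ S 1 := by
    have := h.cj ha (h.inv1 hρ)
    push_cast at this ⊢
    exact this
  have e1 : (z₂ * b * z₂⁻¹ * a⁻¹ : Eˣ) =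
      (z₂ * z⁻¹) * (z * b * z⁻¹ * a⁻¹) * (a * (z₂ * z⁻¹)⁻¹ * a⁻¹) := by group
  have e2 : χ ((a * (z₂ * z⁻¹)⁻¹ * a⁻¹ : Eˣ) : E) = χ (((z₂ * z⁻¹)⁻¹ : Eˣ) : E) := by
    have := h.conj ha (h.inv1 hρ)
    push_cast at this ⊢
    exact this
  rw [e1, Units.val_mul, Units.val_mul, h.chim (h.mul1 hρ hr) hρ', h.chim hρ hr, e2]
  have e3 := h.chi_inv hρ
  linear_combination χ ((z * b * z⁻¹ * a⁻¹ : Eˣ) : E) * e3

end PadDet.Eq
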